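import Mathlib

/-!
Definitions for the problem on three-dimensional faces of sails: integer polytopes, sails of
simplicial cones in `ℝ^(n+1)` (Klein's multidimensional continued fractions), integer equivalence
and integer distance to the origin.
-/

open scoped Pointwise

namespace Pool.Agent.Lib.MP_0bc52e_nt

/-- A real vector all of whose coordinates are integers. -/
def IsIntVec {ι : Type*} (x : ι → ℝ) : Prop := ∀ i, ∃ k : ℤ, x i = (k : ℝ)

/-- An integer polytope: the convex hull of finitely many integer points. -/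
def IsIntegerPolytope {d : ℕ} (P : Set (Fin d → ℝ)) : Prop :=
  ∃ V : Set (Fin d → ℝ), V.Finite ∧ (∀ v ∈ V, IsIntVec v) ∧ P = convexHull ℝ V

/-- The set `P` in `ℝ^d` is `d`-dimensional: its affine hull is the whole space. -/
def IsFullDimensional {d : ℕ} (P : Set (Fin d → ℝ)) : Prop := affineSpan ℝ P = ⊤

/-- One of the open simplicial cones in the complement of the hyperplanes `a i ⬝ᵥ x = 0`,
given by the signs `ε i` of the forms `a i ⬝ᵥ x` on it. -/
def openCone {N : ℕ} (a : Fin N → Fin N → ℝ) (ε : Fin N → ℝ) : Set (Fin N → ℝ) :=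
  {x | ∀ i, 0 < ε i * (a i ⬝ᵥ x)}

/-- The convex hull of the nonzero integer points of the closed cone. -/
def sailBody {N : ℕ} (a : Fin N → Fin N → ℝ) (ε : Fin N → ℝ) : Set (Fin N → ℝ) :=
  convexHull ℝ {x | x ∈ closure (openCone a ε) ∧ IsIntVec x ∧ x ≠ 0}

/-- The sail of the cone: the boundary of that convex hull. -/
def sail {N : ℕ} (a : Fin N → Fin N → ℝ) (ε : Fin N → ℝ) : Set (Fin N → ℝ) :=
  frontier (sailBody a ε)

/-- A face of the sail: a nonempty subset of the sail that is cut out of the convex hull by a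
supporting hyperplane. -/
def IsSailFace {N : ℕ} (a : Fin N → Fin N → ℝ) (ε : Fin N → ℝ) (F : Set (Fin N → ℝ)) : Prop :=
  F.Nonempty ∧ F ⊆ sail a ε ∧ IsExposed ℝ (sailBody a ε) F

/-- A face of the sail in the weaker sense of convex geometry: a nonempty convex subset of the
sail that is an extreme subset of the convex hull. -/
def IsSailFaceWeak {N : ℕ} (a : Fin N → Fin N → ℝ) (ε : Fin N → ℝ) (F : Set (Fin N → ℝ)) : Prop :=
  F.Nonempty ∧ F ⊆ sail a ε ∧ Convex ℝ F ∧ IsExtreme ℝ (sailBody a ε) F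

/-- `P ⊆ ℝ^d` (full-dimensional) and `F ⊆ ℝ^N` are integer equivalent: an injective affine map
that identifies the integer points of `ℝ^d` with the integer points of its image
takes `P` onto `F`. -/
def IntegerEquivalent {d N : ℕ} (P : Set (Fin d → ℝ)) (F : Set (Fin N → ℝ)) : Prop :=
  ∃ g : (Fin d → ℝ) →ᵃ[ℝ] (Fin N → ℝ),
    Function.Injective g ∧ (∀ x, IsIntVec (g x) ↔ IsIntVec x) ∧ g '' P = F

/-- The integer distance from `F` to the origin is the positive integer `h`: there is a linear
functional `ℓ` that takes integer values, and the value `1`, on the integer points of the linear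
span of `F` (so it is a primitive functional of that lattice) and that is constant, equal to `h`,
on `F`. -/
def HasIntegerDistance {N : ℕ} (F : Set (Fin N → ℝ)) (h : ℕ) : Prop :=
  0 < h ∧ ∃ ℓ : (Fin N → ℝ) →ₗ[ℝ] ℝ,
    (∀ x ∈ Submodule.span ℝ F, IsIntVec x → ∃ k : ℤ, ℓ x = (k : ℝ)) ∧
    (∃ x ∈ Submodule.span ℝ F, IsIntVec x ∧ ℓ x = 1) ∧
    ∀ x ∈ F, ℓ x = (h : ℝ)

/-- `P ⊆ ℝ^d` occurs, up to integer equivalence, as a face of some `n`-dimensional continued
fraction with `n ≥ d`, at integer distance `h` from the origin: for some `n + 1` hyperplanes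
through the origin of `ℝ^(n+1)` with linearly independent normals `a i`, one of the sails has a
face that is integer equivalent to `P` and has integer distance `h` to the origin. -/
def OccursAt {d : ℕ} (P : Set (Fin d → ℝ)) (h : ℕ) : Prop :=
  ∃ n : ℕ, d ≤ n ∧ ∃ (a : Fin (n + 1) → Fin (n + 1) → ℝ) (ε : Fin (n + 1) → ℝ)
    (F : Set (Fin (n + 1) → ℝ)),
    LinearIndependent ℝ a ∧ (∀ i, ε i = 1 ∨ ε i = -1) ∧
    IsSailFace a ε F ∧ IntegerEquivalent P F ∧ HasIntegerDistance F h

/-- The same as `OccursAt`, with faces understood in the weaker sense of `IsSailFaceWeak`. -/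
def OccursWeaklyAt {d : ℕ} (P : Set (Fin d → ℝ)) (h : ℕ) : Prop :=
  ∃ n : ℕ, d ≤ n ∧ ∃ (a : Fin (n + 1) → Fin (n + 1) → ℝ) (ε : Fin (n + 1) → ℝ)
    (F : Set (Fin (n + 1) → ℝ)),
    LinearIndependent ℝ a ∧ (∀ i, ε i = 1 ∨ ε i = -1) ∧
    IsSailFaceWeak a ε F ∧ IntegerEquivalent P F ∧ HasIntegerDistance F h

/-- The arithmetic criterion: for some integer vector `o`, no integer point `x` of the dilate
`j • P`, `0 < j < h`, is congruent to `j • o` modulo `h`. -/
def Criterion {d : ℕ} (P : Set (Fin d → ℝ)) (h : ℕ) : Prop :=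
  ∃ o : Fin d → ℤ, ∀ j : ℕ, 0 < j → j < h → ∀ x : Fin d → ℤ,
    (fun i => (x i : ℝ)) ∈ (j : ℝ) • P → ¬ ∀ i, (h : ℤ) ∣ x i - j * o i

end Pool.Agent.Lib.MP_0bc52e_nt
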