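import Pool.Agent.Lib.MP_0bc52e_nt.Sufficiency

open scoped Pointwise

namespace Pool.Agent.Lib.MP_0bc52e_nt

/-- Nonnegative combinations of points of a convex set lie in the dilate. -/
lemma sum_mem_smul {d : ℕ} {Q : Set (Fin d → ℝ)} (hQ : Convex ℝ Q) {ι : Type*} [Fintype ι]
    {p : ι → Fin d → ℝ} (hp : ∀ i, p i ∈ Q) {w : ι → ℝ} (hw : ∀ i, 0 ≤ w i) {s : ℝ} (hs : 0 < s)
    (hsum : ∑ i, w i = s) : ∑ i, w i • p i ∈ s • Q := by
  refine ⟨∑ i, (w i / s) • p i, ?_, ?_⟩
  · apply hQ.sum_mem
    · intro i _; exact div_nonneg (hw i) hs.le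
    · rw [← Finset.sum_div, hsum, div_self hs.ne']
    · intro i _; exact hp i
  · simp only
    rw [Finset.smul_sum]
    apply Finset.sum_congr rfl
    intro i _
    rw [smul_smul]
    congr 1
    field_simp

/-- A full-dimensional integer polytope in `ℝ^d` contains at most `d + 1` integer points that
affinely span. -/
lemma exists_spanning {d : ℕ} {Q : Set (Fin d → ℝ)} (hQ : IsIntegerPolytope Q)
    (hfull : IsFullDimensional Q) :
    ∃ (r : ℕ) (v : Fin (r + 1) → Fin d → ℤ), r ≤ d ∧ (∀ i, (fun l => (v i l : ℝ)) ∈ Q) ∧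
      ∀ x : Fin d → ℝ, ∃ w : Fin (r + 1) → ℝ, ∑ i, w i = 1 ∧
        x = ∑ i, w i • (fun l => (v i l : ℝ)) := by
  classical
  obtain ⟨V, hVfin, hVint, rfl⟩ := hQ
  have hfull' : affineSpan ℝ V = ⊤ := by
    rw [← affineSpan_convexHull]; exact hfull
  obtain ⟨t, htV, htspan, htind⟩ := exists_affineIndependent ℝ (Fin d → ℝ) V
  have htfin : t.Finite := hVfin.subset htV
  have : Fintype t := htfin.fintype
  have hcard : Fintype.card t ≤ d + 1 := by
    have h1 : Fintype.card t ≤ Module.finrank ℝ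
        (vectorSpan ℝ (Set.range ((↑) : t → (Fin d → ℝ)))) + 1 := htind.card_le_finrank_succ
    have h2 : Module.finrank ℝ (vectorSpan ℝ (Set.range ((↑) : t → (Fin d → ℝ)))) ≤ d := by
      have := Submodule.finrank_le (vectorSpan ℝ (Set.range ((↑) : t → (Fin d → ℝ))))
      simpa using this
    omega
  have htne : t.Nonempty := by
    rw [← affineSpan_nonempty ℝ, htspan, hfull']
    exact ⟨0, trivial⟩
  have hcard0 : Fintype.card t ≠ 0 := by
    have : Nonempty t := Set.nonempty_coe_sort.mpr htne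
    exact Fintype.card_ne_zero
  obtain ⟨r, hr⟩ := Nat.exists_eq_succ_of_ne_zero hcard0
  let e : t ≃ Fin (r + 1) := Fintype.equivFinOfCardEq hr
  have hint : ∀ x : t, ∃ z : Fin d → ℤ, (x : Fin d → ℝ) = fun l => (z l : ℝ) := fun x =>
    (hVint x (htV x.2)).exists_eq
  choose z hz using hint
  refine ⟨r, fun i => z (e.symm i), by omega, ?_, ?_⟩
  · intro i
    rw [← hz]
    exact subset_convexHull ℝ V (htV (e.symm i).2)
  · intro x
    have hx : x ∈ affineSpan ℝ (Set.range ((↑) : t → (Fin d → ℝ))) := by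
      rw [Subtype.range_coe, htspan, hfull']; trivial
    obtain ⟨w, hw, hxw⟩ := eq_affineCombination_of_mem_affineSpan_of_fintype hx
    rw [Finset.affineCombination_eq_linear_combination _ _ _ hw] at hxw
    refine ⟨fun i => w (e.symm i), ?_, ?_⟩
    · rw [← hw]; exact e.symm.sum_comp w
    · rw [hxw, ← e.symm.sum_comp]
      apply Finset.sum_congr rfl
      intro i _
      rw [hz]

theorem not_criterion_smul {d k h : ℕ} (hd : 0 < d) (hk : d ≤ k) (hh : 1 < h)
    {Q : Set (Fin d → ℝ)} (hQ : IsIntegerPolytope Q) (hfull : IsFullDimensional Q) :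
    ¬ Criterion ((k : ℝ) • Q) h := by
  rintro ⟨o, ho⟩
  obtain ⟨r, v, hrd, hvQ, hspan⟩ := exists_spanning hQ hfull
  have hQconv : Convex ℝ Q := by
    obtain ⟨V, -, -, rfl⟩ := hQ
    exact convex_convexHull ℝ V
  have hk0 : (0 : ℝ) < k := by exact_mod_cast (by omega : 0 < k)
  have hh1 : (1 : ℝ) < h := by exact_mod_cast hh
  have hh0 : (0 : ℝ) < h := by linarith
  have hhsub : (((h - 1 : ℕ)) : ℝ) = (h : ℝ) - 1 := by
    rw [Nat.cast_sub (by omega)]; simp
  have hhsubZ : (((h - 1 : ℕ)) : ℤ) = (h : ℤ) - 1 := by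
    rw [Nat.cast_sub (by omega)]; simp
  set S : ℝ := ((h : ℝ) - 1) * k with hS
  have hSpos : 0 < S := by
    have : (0 : ℝ) < (h : ℝ) - 1 := by linarith
    positivity
  -- coordinates of `(h-1) • o`
  obtain ⟨w, hw1, hw2⟩ := hspan ((1 / S) • fun l => (((h : ℝ) - 1) * o l))
  set ν : Fin (r + 1) → ℝ := fun i => S * w i with hν
  have hνsum : ∑ i, ν i = S := by
    rw [hν, ← Finset.mul_sum, hw1, mul_one]
  have hνx : ∀ l, ∑ i, ν i * (v i l : ℝ) = ((h : ℝ) - 1) * o l := by
    intro l
    have h1 := congrFun hw2 l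
    simp only [Pi.smul_apply, smul_eq_mul, Finset.sum_apply] at h1
    have h2 : ((h : ℝ) - 1) * o l = S * ∑ i, w i * (v i l : ℝ) := by
      rw [← h1]; field_simp
    rw [h2, Finset.mul_sum]
    apply Finset.sum_congr rfl
    intro i _
    simp only [hν]; ring
  set nf : Fin (r + 1) → ℤ := fun i => ⌊ν i / h⌋ with hnf
  have hnf1 : ∀ i, (nf i : ℝ) * h ≤ ν i := by
    intro i
    have := Int.floor_le (ν i / h)
    rwa [le_div_iff₀ hh0] at this
  set N : ℤ := ∑ i, nf i with hN
  have hNR : (N : ℝ) = ∑ i, (nf i : ℝ) := by rw [hN]; push_cast; rfl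
  rcases le_or_gt 0 N with hN0 | hN0
  · -- a point at level `h - 1`
    have hN0R : (0 : ℝ) ≤ N := by exact_mod_cast hN0
    set w' : Fin (r + 1) → ℝ := fun i => ν i - nf i * h + if i = 0 then (h : ℝ) * N else 0 with hw'
    have hw'nn : ∀ i, 0 ≤ w' i := by
      intro i
      have h1 := hnf1 i
      simp only [hw']
      split_ifs
      · have : 0 ≤ (h : ℝ) * N := by positivity
        linarith
      · linarith
    have hw'sum : ∑ i, w' i = S := by
      simp only [hw', Finset.sum_add_distrib, Finset.sum_sub_distrib, hνsum, ← Finset.sum_mul,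
        ← hNR, Finset.sum_ite_eq', Finset.mem_univ, if_true]
      ring
    have hmem := sum_mem_smul hQconv hvQ hw'nn hSpos hw'sum
    refine ho (h - 1) (by omega) (by omega)
      (fun l => ((h : ℤ) - 1) * o l + h * (N * v 0 l - ∑ i, nf i * v i l)) ?_ ?_
    · rw [smul_smul, hhsub, ← hS]
      convert hmem using 1
      funext l
      simp only [Finset.sum_apply, Pi.smul_apply, smul_eq_mul]
      push_cast
      have h1 := hνx l
      simp only [hw', add_mul, sub_mul, Finset.sum_add_distrib, Finset.sum_sub_distrib, h1,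
        ite_mul, zero_mul, Finset.sum_ite_eq', Finset.mem_univ, if_true]
      have h2 : ∑ x, (nf x : ℝ) * h * (v x l : ℝ) = h * ∑ x, (nf x : ℝ) * (v x l : ℝ) := by
        rw [Finset.mul_sum]
        apply Finset.sum_congr rfl
        intro i _; ring
      rw [h2]
      ring
    · intro l
      rw [hhsubZ]
      exact ⟨N * v 0 l - ∑ i, nf i * v i l, by ring⟩
  · -- a point at level `1`
    set nf' : Fin (r + 1) → ℤ := fun i => ⌊-ν i / h⌋ with hnf'
    have hnf'1 : ∀ i, (nf' i : ℝ) * h ≤ -ν i := by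
      intro i
      have := Int.floor_le (-ν i / h)
      rwa [le_div_iff₀ hh0] at this
    have hnf'2 : ∀ i, -nf i - 1 ≤ nf' i := by
      intro i
      simp only [hnf', hnf]
      rw [Int.le_floor]
      have := Int.lt_floor_add_one (ν i / h)
      push_cast
      rw [neg_div]
      linarith
    set N' : ℤ := ∑ i, nf' i with hN'
    have hN'R : (N' : ℝ) = ∑ i, (nf' i : ℝ) := by rw [hN']; push_cast; rfl
    have hN'1 : -N - (r + 1) ≤ N' := by
      have h1 : ∑ i, (-nf i - 1) ≤ ∑ i, nf' i := Finset.sum_le_sum (fun i _ => hnf'2 i)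
      simp only [Finset.sum_sub_distrib, Finset.sum_neg_distrib, Finset.sum_const,
        Finset.card_univ, Fintype.card_fin, nsmul_eq_mul, mul_one] at h1
      push_cast at h1
      linarith
    have hkN : 0 ≤ (k : ℤ) + N' := by
      have : (r : ℤ) ≤ k := by exact_mod_cast (hrd.trans hk)
      linarith
    have hkNR : (0 : ℝ) ≤ (k : ℝ) + N' := by exact_mod_cast hkN
    set w' : Fin (r + 1) → ℝ :=
      fun i => -ν i - nf' i * h + if i = 0 then (h : ℝ) * (k + N') else 0 with hw'
    have hw'nn : ∀ i, 0 ≤ w' i := by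
      intro i
      have h1 := hnf'1 i
      simp only [hw']
      split_ifs
      · have : 0 ≤ (h : ℝ) * (k + N') := by positivity
        linarith
      · linarith
    have hw'sum : ∑ i, w' i = k := by
      simp only [hw', Finset.sum_add_distrib, Finset.sum_sub_distrib, Finset.sum_neg_distrib,
        hνsum, ← Finset.sum_mul, ← hN'R, Finset.sum_ite_eq', Finset.mem_univ, if_true]
      rw [hS]; ring
    have hmem := sum_mem_smul hQconv hvQ hw'nn hk0 hw'sum
    refine ho 1 (by omega) hh
      (fun l => -(((h : ℤ) - 1) * o l) + h * ((k + N') * v 0 l - ∑ i, nf' i * v i l)) ?_ ?_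
    · rw [Nat.cast_one, one_smul]
      convert hmem using 1
      funext l
      simp only [Finset.sum_apply, Pi.smul_apply, smul_eq_mul]
      push_cast
      have h1 := hνx l
      simp only [hw', add_mul, sub_mul, neg_mul, Finset.sum_add_distrib, Finset.sum_sub_distrib,
        Finset.sum_neg_distrib, h1, ite_mul, zero_mul, Finset.sum_ite_eq', Finset.mem_univ,
        if_true]
      have h2 : ∑ x, (nf' x : ℝ) * h * (v x l : ℝ) = h * ∑ x, (nf' x : ℝ) * (v x l : ℝ) := by
        rw [Finset.mul_sum]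
        apply Finset.sum_congr rfl
        intro i _; ring
      rw [h2]
      ring
    · intro l
      exact ⟨-o l + ((k + N') * v 0 l - ∑ i, nf' i * v i l), by push_cast; ring⟩

lemma isFullDimensional_smul {d : ℕ} {Q : Set (Fin d → ℝ)} (hfull : IsFullDimensional Q) {c : ℝ}
    (hc : c ≠ 0) : IsFullDimensional (c • Q) := by
  unfold IsFullDimensional at *
  have h1 : c • Q = (LinearEquiv.smulOfNeZero ℝ (Fin d → ℝ) c hc).toLinearMap.toAffineMap '' Q := by
    ext x
    simp [Set.mem_smul_set]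
  rw [h1, ← AffineSubspace.map_span, hfull]
  exact AffineMap.map_top_of_surjective _ (LinearEquiv.smulOfNeZero ℝ (Fin d → ℝ) c hc).surjective

end Pool.Agent.Lib.MP_0bc52e_nt
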