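import Pool.Agent.Lib.MP_0bc52e_nt.Sufficiency

open scoped Pointwise

namespace Pool.Agent.Lib.MP_0bc52e_nt

/-- The eight vertices of the polytope `P_c`. -/
def famVertZ (c : ℕ) : Fin 8 → (Fin 3 → ℤ) :=
  ![![0, 1, 0], ![0, 0, 0], ![0, 0, c], ![0, -1, c], ![1, 0, 0], ![1, 0, 1], ![1, -1, 0], ![1, -1, 1]]

/-- The eight vertices of the polytope `P_c`, as real vectors. -/
def famVert (c : ℕ) (k : Fin 8) : Fin 3 → ℝ := fun i => (famVertZ c k i : ℝ)

/-- The polytope `P_c`. -/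
def famPoly (c : ℕ) : Set (Fin 3 → ℝ) := convexHull ℝ (Set.range (famVert c))

lemma famPoly_isIntegerPolytope (c : ℕ) : IsIntegerPolytope (famPoly c) := by
  refine ⟨Set.range (famVert c), Set.finite_range _, ?_, rfl⟩
  rintro _ ⟨k, rfl⟩ i
  exact ⟨famVertZ c k i, rfl⟩

lemma famPoly_isFullDimensional (c : ℕ) : IsFullDimensional (famPoly c) := by
  unfold IsFullDimensional famPoly
  rw [affineSpan_convexHull]
  have hmem : ∀ k, famVert c k ∈ affineSpan ℝ (Set.range (famVert c)) :=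
    fun k => subset_affineSpan ℝ _ ⟨k, rfl⟩
  rw [eq_top_iff]
  intro x _
  -- x = v1 + x0 (v4 - v1) + x1 (v4 - v6) + x2 (v5 - v4)
  have h1 := hmem 1
  have h4 := hmem 4
  have h5 := hmem 5
  have h6 := hmem 6
  have e1 := AffineSubspace.smul_vsub_vadd_mem (affineSpan ℝ (Set.range (famVert c))) (x 0) h4 h1 h1
  have e2 := AffineSubspace.smul_vsub_vadd_mem (affineSpan ℝ (Set.range (famVert c))) (x 1) h4 h6 e1
  have e3 := AffineSubspace.smul_vsub_vadd_mem (affineSpan ℝ (Set.range (famVert c))) (x 2) h5 h4 e2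
  convert e3 using 1
  funext i
  fin_cases i <;> simp [famVert, famVertZ]

lemma mem_smul_famPoly {c : ℕ} {j : ℝ} (hj : 0 < j) {w : Fin 8 → ℝ} (hw : ∀ k, 0 ≤ w k)
    (hsum : ∑ k, w k = j) (x : Fin 3 → ℝ) (hx0 : x 0 = w 4 + w 5 + w 6 + w 7)
    (hx1 : x 1 = w 0 - w 3 - w 6 - w 7) (hx2 : x 2 = c * (w 2 + w 3) + w 5 + w 7) :
    x ∈ j • famPoly c := by
  refine ⟨∑ k, (w k / j) • famVert c k, ?_, ?_⟩
  · apply (convex_convexHull ℝ _).sum_mem
    · intro k _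
      exact div_nonneg (hw k) hj.le
    · rw [← Finset.sum_div, hsum, div_self hj.ne']
    · intro k _
      exact subset_convexHull ℝ _ ⟨k, rfl⟩
  · simp only
    rw [Finset.smul_sum]
    have : ∀ k, j • (w k / j) • famVert c k = w k • famVert c k := by
      intro k
      rw [smul_smul]
      congr 1
      field_simp
    simp only [this]
    funext i
    fin_cases i <;> simp [Fin.sum_univ_eight, famVert, famVertZ, hx0, hx1, hx2] <;> ring

lemma split_aux {A b c s : ℝ} (hc : 0 < c) (hA : 0 ≤ A) (hb : 0 ≤ b) (hs : 0 ≤ s)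
    (hs2 : s ≤ A * c + b) : ∃ r q : ℝ, 0 ≤ r ∧ r ≤ A ∧ 0 ≤ q ∧ q ≤ b ∧ s = c * r + q := by
  rcases le_total s b with h | h
  · exact ⟨0, s, le_refl _, hA, hs, h, by ring⟩
  · refine ⟨(s - b) / c, b, div_nonneg (by linarith) hc.le, ?_, hb, le_refl _, ?_⟩
    · rw [div_le_iff₀ hc]
      linarith
    · field_simp
      ring

/-- Points of `(a+b) • P_c` at nonpositive height. -/
lemma mem_caseB {c : ℕ} (hc : 0 < c) {a b p s : ℝ} (ha : 0 ≤ a) (hb : 0 ≤ b) (hab : 0 < a + b)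
    (hp : 0 ≤ p) (hpb : p ≤ b) (hs : 0 ≤ s) (hs2 : s ≤ a * c + b) (x : Fin 3 → ℝ)
    (hx0 : x 0 = b) (hx1 : x 1 = -p) (hx2 : x 2 = s) : x ∈ (a + b) • famPoly c := by
  have hc' : (0 : ℝ) < c := by exact_mod_cast hc
  obtain ⟨r, q, hr, hrA, hq, hqb, hsrq⟩ := split_aux hc' ha hb hs hs2
  rcases le_total p q with hpq | hpq
  · refine mem_smul_famPoly hab (w := ![0, a - r, r, 0, b - q, q - p, 0, p]) ?_ ?_ x ?_ ?_ ?_
    · intro k
      fin_cases k <;> simp <;> linarith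
    · simp [Fin.sum_univ_eight]; ring
    · simp [hx0]
    · simp [hx1]
    · simp [hx2, hsrq]; ring
  · refine mem_smul_famPoly hab (w := ![0, a - r, r, 0, b - p, 0, p - q, q]) ?_ ?_ x ?_ ?_ ?_
    · intro k
      fin_cases k <;> simp <;> linarith
    · simp [Fin.sum_univ_eight]; ring
    · simp [hx0]
    · simp [hx1]
    · simp [hx2, hsrq]

/-- Points of `(a+b) • P_c` at height `m ≥ 0`. -/
lemma mem_caseC {c : ℕ} (hc : 0 < c) {a b m s : ℝ} (hb : 0 ≤ b) (hab : 0 < a + b)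
    (hm : 0 ≤ m) (hma : m ≤ a) (hs : 0 ≤ s) (hs2 : s ≤ (a - m) * c + b) (x : Fin 3 → ℝ)
    (hx0 : x 0 = b) (hx1 : x 1 = m) (hx2 : x 2 = s) : x ∈ (a + b) • famPoly c := by
  have hc' : (0 : ℝ) < c := by exact_mod_cast hc
  obtain ⟨r, q, hr, hrA, hq, hqb, hsrq⟩ := split_aux hc' (by linarith : 0 ≤ a - m) hb hs hs2
  refine mem_smul_famPoly hab (w := ![m, a - m - r, r, 0, b - q, q, 0, 0]) ?_ ?_ x ?_ ?_ ?_
  · intro k
    fin_cases k <;> simp <;> linarith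
  · simp [Fin.sum_univ_eight]; ring
  · simp [hx0]
  · simp [hx1]
  · simp [hx2, hsrq]

/-- Points of `(a+b) • P_c` at height `-m - b`. -/
lemma mem_caseD {c : ℕ} (hc : 0 < c) {a b m s : ℝ} (hb : 0 ≤ b) (hab : 0 < a + b)
    (hm : 0 ≤ m) (hma : m ≤ a) (hs : 0 ≤ s) (hs2 : s ≤ (a - m) * c + b) (x : Fin 3 → ℝ)
    (hx0 : x 0 = b) (hx1 : x 1 = -m - b) (hx2 : x 2 = m * c + s) : x ∈ (a + b) • famPoly c := by
  have hc' : (0 : ℝ) < c := by exact_mod_cast hc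
  obtain ⟨r, q, hr, hrA, hq, hqb, hsrq⟩ := split_aux hc' (by linarith : 0 ≤ a - m) hb hs hs2
  refine mem_smul_famPoly hab (w := ![0, a - m - r, r, m, 0, 0, b - q, q]) ?_ ?_ x ?_ ?_ ?_
  · intro k
    fin_cases k <;> simp <;> linarith
  · simp [Fin.sum_univ_eight]; ring
  · simp [hx0]
  · simp [hx1]; ring
  · simp [hx2, hsrq]; ring

end Pool.Agent.Lib.MP_0bc52e_nt
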