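import Pool.Agent.Lib.MP_0bc52e_nt.Family

open scoped Pointwise

namespace Pool.Agent.Lib.MP_0bc52e_nt

/-- The inequalities valid on `P_c`. -/
def famIneq (c : ℕ) : Set (Fin 3 → ℝ) :=
  {y | 0 ≤ y 0 ∧ y 0 ≤ 1 ∧ -1 ≤ y 1 ∧ y 0 + y 1 ≤ 1 ∧ 0 ≤ y 2 ∧ -(c * (y 0 + y 1)) ≤ y 2 ∧
    y 2 ≤ c * (1 - y 0) + y 0 ∧ y 2 ≤ y 0 + c * (1 - y 0 - y 1)}

lemma famIneq_convex (c : ℕ) : Convex ℝ (famIneq c) := by
  intro x hx y hy a b ha hb hab
  obtain ⟨x1, x2, x3, x4, x5, x6, x7, x8⟩ := hx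
  obtain ⟨y1, y2, y3, y4, y5, y6, y7, y8⟩ := hy
  simp only [famIneq, Set.mem_ofPred_eq, Pi.add_apply, Pi.smul_apply, smul_eq_mul]
  have hb' : b = 1 - a := by linarith
  subst hb'
  refine ⟨?_, ?_, ?_, ?_, ?_, ?_, ?_, ?_⟩
  · linarith [mul_nonneg ha x1, mul_nonneg hb y1]
  · linarith [mul_nonneg ha (sub_nonneg.2 x2), mul_nonneg hb (sub_nonneg.2 y2)]
  · linarith [mul_nonneg ha (sub_nonneg.2 x3), mul_nonneg hb (sub_nonneg.2 y3)]
  · linarith [mul_nonneg ha (sub_nonneg.2 x4), mul_nonneg hb (sub_nonneg.2 y4)]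
  · linarith [mul_nonneg ha x5, mul_nonneg hb y5]
  · linarith [mul_nonneg ha (sub_nonneg.2 x6), mul_nonneg hb (sub_nonneg.2 y6)]
  · linarith [mul_nonneg ha (sub_nonneg.2 x7), mul_nonneg hb (sub_nonneg.2 y7)]
  · linarith [mul_nonneg ha (sub_nonneg.2 x8), mul_nonneg hb (sub_nonneg.2 y8)]

lemma famPoly_subset_ineq (c : ℕ) : famPoly c ⊆ famIneq c := by
  apply convexHull_min _ (famIneq_convex c)
  rintro _ ⟨k, rfl⟩
  have hc : (0 : ℝ) ≤ c := Nat.cast_nonneg c
  fin_cases k <;> simp [famIneq, famVert, famVertZ] <;> linarith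

/-- If `h` divides `c` then `P_c` satisfies the criterion at `h`. -/
lemma famPoly_criterion {c h : ℕ} (hh : 0 < h) (hdvd : h ∣ c) : Criterion (famPoly c) h := by
  refine ⟨![2, -1, 1], ?_⟩
  intro j hj hjh x hx hcong
  obtain ⟨y, hy, hyx⟩ := hx
  have hy := famPoly_subset_ineq c hy
  obtain ⟨y1, y2, y3, y4, y5, y6, y7, y8⟩ := hy
  have hj0 : (0 : ℝ) < j := by exact_mod_cast hj
  have e0 : (j : ℝ) * y 0 = x 0 := congrFun hyx 0
  have e1 : (j : ℝ) * y 1 = x 1 := congrFun hyx 1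
  have e2 : (j : ℝ) * y 2 = x 2 := congrFun hyx 2
  have i1 : (0 : ℤ) ≤ x 0 := by
    have := mul_nonneg hj0.le y1
    rw [e0] at this
    exact_mod_cast this
  have i2 : x 0 ≤ j := by
    have := mul_le_mul_of_nonneg_left y2 hj0.le
    rw [e0, mul_one] at this
    exact_mod_cast this
  have i3 : -(j : ℤ) ≤ x 1 := by
    have := mul_le_mul_of_nonneg_left y3 hj0.le
    rw [e1] at this
    have h2 : -(j : ℝ) ≤ x 1 := by linarith
    exact_mod_cast h2
  have i4 : x 0 + x 1 ≤ j := by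
    have := mul_le_mul_of_nonneg_left y4 hj0.le
    rw [mul_add, e0, e1, mul_one] at this
    exact_mod_cast this
  have i5 : (0 : ℤ) ≤ x 2 := by
    have := mul_nonneg hj0.le y5
    rw [e2] at this
    exact_mod_cast this
  have i6 : -((c : ℤ) * (x 0 + x 1)) ≤ x 2 := by
    have := mul_le_mul_of_nonneg_left y6 hj0.le
    rw [e2] at this
    have h2 : (j : ℝ) * -(c * (y 0 + y 1)) = -(c * (x 0 + x 1)) := by
      rw [← e0, ← e1]; ring
    rw [h2] at this
    exact_mod_cast this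
  have i7 : x 2 ≤ (c : ℤ) * (j - x 0) + x 0 := by
    have := mul_le_mul_of_nonneg_left y7 hj0.le
    rw [e2] at this
    have h2 : (j : ℝ) * (c * (1 - y 0) + y 0) = c * (j - x 0) + x 0 := by
      rw [← e0]; ring
    rw [h2] at this
    exact_mod_cast this
  have i8 : x 2 ≤ x 0 + (c : ℤ) * (j - x 0 - x 1) := by
    have := mul_le_mul_of_nonneg_left y8 hj0.le
    rw [e2] at this
    have h2 : (j : ℝ) * (y 0 + c * (1 - y 0 - y 1)) = x 0 + c * (j - x 0 - x 1) := by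
      rw [← e0, ← e1]; ring
    rw [h2] at this
    exact_mod_cast this
  obtain ⟨c', rfl⟩ := hdvd
  obtain ⟨α, hα⟩ := hcong 0
  obtain ⟨β, hβ⟩ := hcong 1
  obtain ⟨γ, hγ⟩ := hcong 2
  have hjZ : (0 : ℤ) < j := by exact_mod_cast hj
  have hjhZ : (j : ℤ) < h := by exact_mod_cast hjh
  have hhZ : (0 : ℤ) < h := by exact_mod_cast hh
  simp at hα hβ hγ
  -- `α = -1`
  have hα1 : α = -1 := by
    have h1 : (h : ℤ) * α < 0 := by linarith
    have h2 : (h : ℤ) * (-2) < h * α := by linarith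
    have h3 : α < 0 := by
      by_contra hn
      have := mul_nonneg hhZ.le (not_lt.mp hn)
      linarith
    have h4 : -2 < α := lt_of_mul_lt_mul_left h2 hhZ.le
    omega
  subst hα1
  have hβ0 : 0 ≤ β := by
    have h1 : (h : ℤ) * 0 ≤ h * β := by linarith
    exact le_of_mul_le_mul_left h1 hhZ
  have hβ1 : β ≤ 1 := by
    have h1 : (h : ℤ) * β ≤ h * 1 := by linarith
    exact le_of_mul_le_mul_left h1 hhZ
  have hβ' : β = 0 ∨ β = 1 := by omega
  rcases hβ' with rfl | rfl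
  · -- lower face
    have hx0 : x 0 = 2 * j - h := by linarith
    have hx1 : x 1 = -j := by linarith
    rw [hx0, hx1] at i6
    rw [hx0] at i7
    -- x 2 = j + h γ, c = h c'
    have hx2 : x 2 = j + h * γ := by linarith
    rw [hx2] at i6 i7
    push_cast at i6 i7
    -- s = h (γ - c' (h - j))
    set δ : ℤ := γ - c' * (h - j) with hδ
    have hγδ : γ = δ + c' * (h - j) := by rw [hδ]; ring
    rw [hγδ] at i6 i7
    have h1 : (h : ℤ) * (-1) < h * δ := by nlinarith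
    have h2 : (h : ℤ) * δ < h * 0 := by nlinarith
    have h3 := lt_of_mul_lt_mul_left h1 hhZ.le
    have h4 := lt_of_mul_lt_mul_left h2 hhZ.le
    omega
  · have hx0 : x 0 = 2 * j - h := by linarith
    have hx1 : x 1 = h - j := by linarith
    rw [hx0, hx1] at i8
    have hx2 : x 2 = j + h * γ := by linarith
    rw [hx2] at i8 i5
    push_cast at i8
    have h1 : (h : ℤ) * (-1) < h * γ := by linarith
    have h2 : (h : ℤ) * γ < h * 0 := by nlinarith
    have h3 := lt_of_mul_lt_mul_left h1 hhZ.le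
    have h4 := lt_of_mul_lt_mul_left h2 hhZ.le
    omega

end Pool.Agent.Lib.MP_0bc52e_nt
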