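import Pool.Agent.Lib.MP_0bc52e_nt.FamilySpectrum

open scoped Pointwise

namespace Pool.Agent.Lib.MP_0bc52e_nt

lemma emod_spec (h k : ℤ) (hh : 0 < h) : 0 ≤ k % h ∧ k % h < h ∧ h ∣ k % h - k := by
  refine ⟨Int.emod_nonneg k hh.ne', Int.emod_lt_of_pos k hh, ?_⟩
  exact ⟨-(k / h), by have := Int.emod_add_mul_ediv k h; linarith⟩

lemma exists_rep (h k lo : ℤ) (hh : 0 < h) : ∃ v, lo ≤ v ∧ v < lo + h ∧ h ∣ v - k := by
  obtain ⟨h1, h2, h3⟩ := emod_spec h (k - lo) hh
  refine ⟨lo + (k - lo) % h, by linarith, by linarith, ?_⟩
  have : lo + (k - lo) % h - k = (k - lo) % h - (k - lo) := by ring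
  rw [this]; exact h3

/-- Every residue class is attained by `(h-1) • P_c` when `h` does not divide `c`, except for one
class when `c = 2`. -/
lemma famPoly_cover {c h : ℕ} (hc : 0 < c) (hh : 2 ≤ h) (hnd : ¬ h ∣ c) (κ : Fin 3 → ℤ) :
    (∃ x : Fin 3 → ℤ, (∀ i, (h : ℤ) ∣ x i - κ i) ∧
      (fun i => (x i : ℝ)) ∈ ((h : ℝ) - 1) • famPoly c) ∨
    (c = 2 ∧ (h : ℤ) ∣ κ 0 ∧ (h : ℤ) ∣ 2 * κ 1 ∧ (h : ℤ) ∣ κ 2 + 1) := by
  have hhZ : (0 : ℤ) < h := by exact_mod_cast (by omega : 0 < h)
  have hcZ : (1 : ℤ) ≤ c := by exact_mod_cast hc
  obtain ⟨b, hb0, hbh, hbd⟩ := exists_rep h (κ 0) 0 hhZ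
  rw [zero_add] at hbh
  -- `a = h - 1 - b`
  obtain ⟨a, ha⟩ : ∃ a : ℤ, a = h - 1 - b := ⟨_, rfl⟩
  have ha0 : 0 ≤ a := by linarith
  have hab : ((h : ℝ) - 1) = a + b := by
    have : (h : ℤ) - 1 = a + b := by linarith
    exact_mod_cast this
  have habpos : (0 : ℝ) < (a : ℝ) + b := by
    rw [← hab]
    have : (2 : ℝ) ≤ h := by exact_mod_cast hh
    linarith
  have ha0R : (0 : ℝ) ≤ a := by exact_mod_cast ha0
  have hb0R : (0 : ℝ) ≤ b := by exact_mod_cast hb0
  obtain ⟨m, hm1, hm2, hmd⟩ := exists_rep h (κ 1) (-b) hhZ
  obtain ⟨v, hv0, hvh, hvd⟩ := exists_rep h (κ 2) 0 hhZ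
  rw [zero_add] at hvh
  have hma : m ≤ a := by linarith
  rw [hab]
  rcases le_or_gt m 0 with hm0 | hm0
  · -- level `m ≤ 0`
    left
    refine ⟨![b, m, v], ?_, ?_⟩
    · intro i; fin_cases i
      · simpa using hbd
      · simpa using hmd
      · simpa using hvd
    · apply mem_caseB hc (p := -(m : ℝ)) (s := v) ha0R hb0R habpos
      · have : (m : ℝ) ≤ 0 := by exact_mod_cast hm0
        linarith
      · have : (-b : ℝ) ≤ m := by exact_mod_cast hm1
        linarith
      · exact_mod_cast hv0
      · have h1 : v ≤ a * c + b := by nlinarith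
        exact_mod_cast h1
      · simp
      · simp
      · simp
  · have hm1' : 1 ≤ m := hm0
    have hmR : (0 : ℝ) ≤ m := by exact_mod_cast hm0.le
    have hmaR : (m : ℝ) ≤ a := by exact_mod_cast hma
    rcases le_or_gt v ((a - m) * c + b) with hv1 | hv1
    · left
      refine ⟨![b, m, v], ?_, ?_⟩
      · intro i; fin_cases i
        · simpa using hbd
        · simpa using hmd
        · simpa using hvd
      · apply mem_caseC hc (m := m) (s := v) hb0R habpos hmR hmaR
        · exact_mod_cast hv0
        · exact_mod_cast hv1
        · simp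
        · simp
        · simp
    · -- the other level, `m - h = -(a + 1 - m) - b`
      have hother : ∀ w : ℤ, (a + 1 - m) * c ≤ w → w ≤ a * c + b → (h : ℤ) ∣ w - κ 2 →
          ∃ x : Fin 3 → ℤ, (∀ i, (h : ℤ) ∣ x i - κ i) ∧
            (fun i => (x i : ℝ)) ∈ ((a : ℝ) + b) • famPoly c := by
        intro w hw1 hw2 hwd
        refine ⟨![b, m - h, w], ?_, ?_⟩
        · intro i; fin_cases i
          · simpa using hbd
          · have h1 : (h : ℤ) ∣ (m - κ 1) - h := Dvd.dvd.sub hmd (dvd_refl _)
            have h2 : m - h - κ 1 = (m - κ 1) - h := by ring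
            simpa [h2] using h1
          · simpa using hwd
        · apply mem_caseD hc (m := (a : ℝ) + 1 - m) (s := (w : ℝ) - (a + 1 - m) * c) hb0R habpos
          · linarith
          · have : (1 : ℝ) ≤ m := by exact_mod_cast hm1'
            linarith
          · have : ((a : ℝ) + 1 - m) * c ≤ w := by exact_mod_cast hw1
            linarith
          · have h1 : (w : ℝ) ≤ a * c + b := by exact_mod_cast hw2
            have h2 : ((a : ℝ) - (a + 1 - m)) * c = a * c - (a + 1 - m) * c := by ring
            rw [h2]
            linarith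
          · simp
          · have h1 : (h : ℝ) = a + b + 1 := by linarith
            simp [h1]; ring
          · simp
      rcases le_or_gt a ((m - 1) * c) with hbig | hbig
      · left
        obtain ⟨w, hw1, hw2, hwd⟩ := exists_rep h (κ 2) ((a + 1 - m) * c) hhZ
        apply hother w hw1 _ hwd
        have : (a + 1 - m) * c + (m - 1) * c = a * c := by ring
        linarith
      · have hsm : (a - m) * c < a := by linarith
        rcases Nat.lt_or_ge c 3 with hc3 | hc3
        · have hc12 : c = 1 ∨ c = 2 := by omega
          rcases hc12 with rfl | rfl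
          · -- c = 1
            left
            apply hother v _ _ hvd
            · push_cast at hv1 ⊢
              linarith
            · push_cast
              linarith
          · -- c = 2
            push_cast at hv1 hbig hsm hother
            rcases le_or_gt ((a + 1 - m) * 2) v with h1 | h1
            · left
              apply hother v h1 _ hvd
              linarith
            · have hb00 : b = 0 := by linarith
              have hveq : v = (a - m) * 2 + 1 := by linarith
              rcases le_or_gt ((a - m) * 2 + 2) a with h2 | h2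
              · left
                apply hother (v + h) _ _ _
                · linarith
                · linarith
                · have : v + h - κ 2 = (v - κ 2) + h := by ring
                  rw [this]
                  exact Dvd.dvd.add hvd (dvd_refl _)
              · right
                refine ⟨rfl, ?_, ?_, ?_⟩
                · rw [hb00] at hbd
                  have := hbd.neg_right
                  simpa using this
                · -- `2 m = h`
                  have h3 : 2 * m = h := by omega
                  obtain ⟨q, hq⟩ := hmd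
                  refine ⟨1 - 2 * q, ?_⟩
                  linarith
                · have h3 : v = h - 1 := by omega
                  obtain ⟨q, hq⟩ := hvd
                  refine ⟨1 - q, ?_⟩
                  linarith
        · -- c ≥ 3
          have hc3Z : (3 : ℤ) ≤ c := by exact_mod_cast hc3
          have ha1 : a = 1 := by
            by_contra hne
            have ha2 : 2 ≤ a := by omega
            have h1 : (a - 1) * c ≤ 2 * (a - 1) := by
              have e : (a - 1) * c = (m - 1) * c + (a - m) * c := by ring
              linarith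
            nlinarith
          subst ha1
          have hm1e : m = 1 := by linarith
          subst hm1e
          have hveq : v = h - 1 := by
            simp at hv1
            linarith
          left
          obtain ⟨w, hw1, hw2, hwd⟩ := exists_rep h (κ 2) ((1 + 1 - 1) * c) hhZ
          rcases lt_or_eq_of_le (show w ≤ 1 * c + b + 1 by linarith) with h1 | h1
          · exact hother w hw1 (by linarith) hwd
          · exfalso
            apply hnd
            have h2 : (h : ℤ) ∣ c := by
              obtain ⟨q, hq⟩ := hwd
              obtain ⟨q', hq'⟩ := hvd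
              refine ⟨q - q', ?_⟩
              linarith
            exact_mod_cast h2

/-- If `P_c` satisfies the criterion at `h` then `h` divides `c`. -/
lemma famPoly_dvd {c h : ℕ} (hc : 0 < c) (hh : 0 < h) (H : Criterion (famPoly c) h) : h ∣ c := by
  rcases Nat.lt_or_ge h 2 with h1 | h1
  · have : h = 1 := by omega
    rw [this]; exact one_dvd c
  by_contra hnd
  obtain ⟨o, ho⟩ := H
  have hcast : (((h - 1 : ℕ) : ℕ) : ℝ) = (h : ℝ) - 1 := by
    rw [Nat.cast_sub (by omega)]; simp
  rcases famPoly_cover hc h1 hnd (fun i => ((h - 1 : ℕ) : ℤ) * o i) with ⟨x, hx1, hx2⟩ | ⟨rfl, h3, h4, h5⟩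
  · exact ho (h - 1) (by omega) (by omega) x (by rw [hcast]; exact hx2) hx1
  · -- c = 2
    have hh3 : 2 < h := by
      rcases lt_or_eq_of_le h1 with h6 | h6
      · exact h6
      · exact absurd (h6 ▸ dvd_refl 2) hnd
    have e : ((h - 1 : ℕ) : ℤ) = h - 1 := by
      rw [Nat.cast_sub (by omega)]; simp
    simp only [e] at h3 h4 h5
    refine ho 2 (by norm_num) hh3 ![0, 0, 2] ?_ ?_
    · have := mem_caseB (c := 2) (by norm_num) (a := 2) (b := 0) (p := 0) (s := 2) (by norm_num)
        (by norm_num) (by norm_num) (by norm_num) (by norm_num) (by norm_num) (by norm_num)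
        (fun i => ((![0, 0, 2] : Fin 3 → ℤ) i : ℝ)) (by simp) (by simp) (by simp)
      simpa using this
    · intro i
      obtain ⟨q0, hq0⟩ := h3
      obtain ⟨q1, hq1⟩ := h4
      obtain ⟨q2, hq2⟩ := h5
      fin_cases i
      · refine ⟨2 * q0 - 2 * o 0, ?_⟩
        simp
        linarith
      · refine ⟨q1 - 2 * o 1, ?_⟩
        simp
        linarith
      · refine ⟨2 * q2 - 2 * o 2, ?_⟩
        simp
        linarith

/-- The polytope `P_c` occurs at integer distance `h` exactly when `h` divides `c`. -/
theorem famPoly_occursAt_iff {c h : ℕ} (hc : 0 < c) (hh : 0 < h) :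
    OccursAt (famPoly c) h ↔ h ∣ c := by
  constructor
  · intro H
    exact famPoly_dvd hc hh (H.weak.criterion (famPoly_isFullDimensional c))
  · intro H
    exact (famPoly_criterion hh H).occursAt hh (famPoly_isIntegerPolytope c)
      (famPoly_isFullDimensional c)

end Pool.Agent.Lib.MP_0bc52e_nt
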