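import Pool.Agent.Lib.MP_0bc52e_nt.Necessity

open scoped Pointwise

namespace Pool.Agent.Lib.MP_0bc52e_nt

lemma form_dotProduct {N : ℕ} (Φ : (Fin N → ℝ) →ₗ[ℝ] ℝ) (z : Fin N → ℝ) :
    (fun j => Φ (Pi.single j 1)) ⬝ᵥ z = Φ z := by
  rw [LinearMap.pi_apply_eq_sum_univ Φ z]
  unfold dotProduct
  apply Finset.sum_congr rfl
  intro i _
  rw [smul_eq_mul, mul_comm]
  have : (Pi.single i 1 : Fin N → ℝ) = fun j => if i = j then 1 else 0 := by
    funext j
    simp [Pi.single_apply, eq_comm]
  simp only [this]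

/-- If suitable linear forms exist then `P` occurs at distance `h`. -/
theorem occursAt_of_forms {d n h : ℕ} (hn : d ≤ n) (hh : 0 < h) {P : Set (Fin d → ℝ)}
    (hP : IsIntegerPolytope P) (hPne : P.Nonempty)
    (Φ : Fin (n + 1) → ((Fin (n + 1) → ℝ) →ₗ[ℝ] ℝ)) (hΦ : LinearIndependent ℝ Φ)
    (g : (Fin d → ℝ) →ᵃ[ℝ] (Fin (n + 1) → ℝ)) (hginj : Function.Injective g)
    (hgint : ∀ x, IsIntVec (g x) ↔ IsIntVec x)
    (T : (Fin (n + 1) → ℝ) →ₗ[ℝ] ℝ) (hTint : ∀ z, IsIntVec z → ∃ k : ℤ, T z = k)
    (e : Fin (n + 1) → ℝ) (heint : IsIntVec e) (hTe : T e = 1)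
    (hespan : e ∈ Submodule.span ℝ (g '' P))
    (hTg : ∀ x, T (g x) = h)
    (hpos : ∀ y ∈ P, ∀ i, 0 < Φ i (g y))
    (hmin : ∀ z, IsIntVec z → z ≠ 0 → (∀ i, 0 ≤ Φ i z) →
      (h : ℝ) < T z ∨ z ∈ g '' P) :
    OccursAt P h := by
  obtain ⟨V, -, hVint, hPV⟩ := hP
  set a : Fin (n + 1) → Fin (n + 1) → ℝ := fun i j => Φ i (Pi.single j 1) with ha
  have haz : ∀ i z, a i ⬝ᵥ z = Φ i z := fun i z => form_dotProduct (Φ i) z
  have hh1 : (0 : ℝ) < h := by exact_mod_cast hh
  have hcl : closure (openCone a (fun _ => 1)) ⊆ {z | ∀ i, 0 ≤ Φ i z} := by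
    apply closure_minimal
    · intro z hz i
      have := hz i
      rw [haz] at this
      linarith
    · have : {z : Fin (n + 1) → ℝ | ∀ i, 0 ≤ Φ i z} = ⋂ i, {z | 0 ≤ Φ i z} := by
        ext z; simp
      rw [this]
      apply isClosed_iInter
      intro i
      exact isClosed_le continuous_const (LinearMap.continuous_of_finiteDimensional (Φ i))
  have hFsub : g '' P ⊆ sailBody a (fun _ => 1) := by
    rw [hPV, AffineMap.image_convexHull]
    apply convexHull_mono
    rintro _ ⟨v, hv, rfl⟩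
    have hvP : v ∈ P := by rw [hPV]; exact subset_convexHull ℝ V hv
    refine ⟨subset_closure ?_, (hgint v).2 (hVint v hv), ?_⟩
    · intro i
      rw [haz]
      simpa using hpos v hvP i
    · intro h0
      have := hTg v
      rw [h0, map_zero] at this
      linarith
  have hFT : ∀ z ∈ g '' P, T z = h := by
    rintro _ ⟨y, -, rfl⟩
    exact hTg y
  have hPconv : Convex ℝ P := by rw [hPV]; exact convex_convexHull ℝ V
  have hFconv : Convex ℝ (g '' P) := hPconv.affine_image g
  have hQconv : Convex ℝ {z : Fin (n + 1) → ℝ | (h : ℝ) < T z ∨ z ∈ g '' P} := by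
    rw [convex_iff_forall_pos]
    intro x hx y hy s t hs ht hst
    have hxT : (h : ℝ) ≤ T x := by
      rcases hx with hx | hx
      · exact hx.le
      · exact (hFT x hx).ge
    have hyT : (h : ℝ) ≤ T y := by
      rcases hy with hy | hy
      · exact hy.le
      · exact (hFT y hy).ge
    have hval : T (s • x + t • y) = s * T x + t * T y := by simp
    rcases hx with hx | hx
    · left
      rw [hval]
      have h1 := mul_lt_mul_of_pos_left hx hs
      have h2 := mul_le_mul_of_nonneg_left hyT ht.le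
      have h3 : (h : ℝ) = s * h + t * h := by rw [← add_mul, hst, one_mul]
      linarith
    · rcases hy with hy | hy
      · left
        rw [hval]
        have h1 := mul_lt_mul_of_pos_left hy ht
        have h2 := mul_le_mul_of_nonneg_left hxT hs.le
        have h3 : (h : ℝ) = s * h + t * h := by rw [← add_mul, hst, one_mul]
        linarith
      · right
        exact hFconv hx hy hs.le ht.le hst
  have hKQ : sailBody a (fun _ => 1) ⊆ {z : Fin (n + 1) → ℝ | (h : ℝ) < T z ∨ z ∈ g '' P} := by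
    apply convexHull_min _ hQconv
    rintro z ⟨hz1, hz2, hz3⟩
    exact hmin z hz2 hz3 (hcl hz1)
  have hKT : ∀ z ∈ sailBody a (fun _ => 1), (h : ℝ) ≤ T z := by
    intro z hz
    rcases hKQ hz with h1 | h1
    · exact h1.le
    · exact (hFT z h1).ge
  obtain ⟨y0, hy0⟩ := hPne
  refine ⟨n, hn, a, fun _ => 1, g '' P, ?_, fun _ => Or.inl rfl, ⟨⟨g y0, y0, hy0, rfl⟩, ?_, ?_⟩,
    ⟨g, hginj, hgint, rfl⟩, hh, T, fun z _ hz => hTint z hz, ⟨e, hespan, heint, hTe⟩, hFT⟩
  · -- linear independence of the normals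
    rw [Fintype.linearIndependent_iff] at hΦ ⊢
    intro c hc
    apply hΦ
    apply LinearMap.ext
    intro z
    have h1 : (∑ i, c i • a i) ⬝ᵥ z = 0 := by rw [hc]; simp
    rw [sum_dotProduct] at h1
    simp only [smul_dotProduct, haz, smul_eq_mul] at h1
    simpa using h1
  · -- contained in the frontier
    intro z hz
    refine ⟨subset_closure (hFsub hz), fun hzi => ?_⟩
    have hcont : Continuous (fun δ : ℝ => z - δ • e) := by fun_prop
    have hmem : (fun δ : ℝ => z - δ • e) ⁻¹' (interior (sailBody a (fun _ => 1))) ∈ nhds (0 : ℝ) := by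
      apply hcont.continuousAt.preimage_mem_nhds
      apply isOpen_interior.mem_nhds
      simpa using hzi
    rw [Metric.mem_nhds_iff] at hmem
    obtain ⟨r, hr, hball⟩ := hmem
    have h1 : r / 2 ∈ Metric.ball (0 : ℝ) r := by
      rw [Metric.mem_ball, dist_zero_right, Real.norm_eq_abs, abs_of_pos (by linarith)]
      linarith
    have h2 := interior_subset (hball h1)
    have h3 := hKT _ h2
    rw [map_sub, map_smul, hFT z hz, hTe, smul_eq_mul] at h3
    linarith
  · -- exposed
    intro _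
    refine ⟨LinearMap.toContinuousLinearMap (-T), ?_⟩
    apply Set.Subset.antisymm
    · intro z hz
      refine ⟨hFsub hz, fun y hy => ?_⟩
      have h1 := hKT y hy
      have h2 := hFT z hz
      simp only [LinearMap.coe_toContinuousLinearMap', LinearMap.neg_apply]
      linarith
    · rintro z ⟨hzK, hz⟩
      have h1 := hz (g y0) (hFsub ⟨y0, hy0, rfl⟩)
      simp only [LinearMap.coe_toContinuousLinearMap', LinearMap.neg_apply, hTg] at h1
      rcases hKQ hzK with h2 | h2
      · exact absurd h2 (by linarith)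
      · exact h2

end Pool.Agent.Lib.MP_0bc52e_nt
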