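import Pool.Agent.Lib.MP_0bc52e_nt.Defs

open scoped Pointwise

namespace Pool.Agent.Lib.MP_0bc52e_nt

lemma IsIntVec.add {ι : Type*} {x y : ι → ℝ} (hx : IsIntVec x) (hy : IsIntVec y) :
    IsIntVec (x + y) := by
  intro i
  obtain ⟨a, ha⟩ := hx i
  obtain ⟨b, hb⟩ := hy i
  exact ⟨a + b, by simp [ha, hb]⟩

lemma IsIntVec.sub {ι : Type*} {x y : ι → ℝ} (hx : IsIntVec x) (hy : IsIntVec y) :
    IsIntVec (x - y) := by
  intro i
  obtain ⟨a, ha⟩ := hx i
  obtain ⟨b, hb⟩ := hy i
  exact ⟨a - b, by simp [ha, hb]⟩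

lemma IsIntVec.zero {ι : Type*} : IsIntVec (0 : ι → ℝ) := fun _ => ⟨0, by simp⟩

lemma IsIntVec.nsmul {ι : Type*} {x : ι → ℝ} (hx : IsIntVec x) (n : ℕ) :
    IsIntVec ((n : ℝ) • x) := by
  intro i
  obtain ⟨a, ha⟩ := hx i
  exact ⟨n * a, by simp [ha]⟩

lemma isIntVec_cast {ι : Type*} (x : ι → ℤ) : IsIntVec (fun i => (x i : ℝ)) :=
  fun i => ⟨x i, rfl⟩

lemma IsIntVec.exists_eq {ι : Type*} {x : ι → ℝ} (hx : IsIntVec x) :
    ∃ z : ι → ℤ, x = fun i => (z i : ℝ) := by
  choose z hz using hx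
  exact ⟨z, funext hz⟩

section cone
variable {N : ℕ} {a : Fin N → Fin N → ℝ} {ε : Fin N → ℝ}

lemma smul_mem_openCone {c : ℝ} (hc : 0 < c) {x : Fin N → ℝ} (hx : x ∈ openCone a ε) :
    c • x ∈ openCone a ε := by
  intro i
  have := hx i
  rw [dotProduct_smul, smul_eq_mul]
  have h2 := mul_pos hc this
  linarith [h2, show ε i * (c * (a i ⬝ᵥ x)) = c * (ε i * (a i ⬝ᵥ x)) by ring]

lemma smul_mem_closure_openCone {c : ℝ} (hc : 0 < c) {x : Fin N → ℝ}
    (hx : x ∈ closure (openCone a ε)) : c • x ∈ closure (openCone a ε) :=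
  map_mem_closure (continuous_const_smul c) hx (fun _ hy => smul_mem_openCone hc hy)

lemma convex_openCone : Convex ℝ (openCone a ε) := by
  intro x hx y hy s t hs ht hst i
  rw [dotProduct_add, dotProduct_smul, dotProduct_smul, smul_eq_mul, smul_eq_mul, mul_add]
  rcases hs.eq_or_lt with rfl | hs'
  · have : t = 1 := by linarith
    subst this
    have := hy i
    linarith [show ε i * (0 * (a i ⬝ᵥ x)) = 0 by ring, show ε i * (1 * (a i ⬝ᵥ y)) = ε i * (a i ⬝ᵥ y) by ring]
  · have h1 := mul_pos hs' (hx i)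
    have h2 := mul_nonneg ht (hy i).le
    linarith [show ε i * (s * (a i ⬝ᵥ x)) = s * (ε i * (a i ⬝ᵥ x)) by ring,
      show ε i * (t * (a i ⬝ᵥ y)) = t * (ε i * (a i ⬝ᵥ y)) by ring]

lemma sailBody_subset_closure : sailBody a ε ⊆ closure (openCone a ε) :=
  convexHull_min (fun _ hx => hx.1) convex_openCone.closure

lemma two_smul_mem_sailBody {x : Fin N → ℝ} (hx : x ∈ sailBody a ε) :
    (2 : ℝ) • x ∈ sailBody a ε := by
  have h1 : (LinearMap.lsmul ℝ (Fin N → ℝ) (2 : ℝ)) '' (sailBody a ε) ⊆ sailBody a ε := by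
    unfold sailBody
    rw [LinearMap.image_convexHull]
    apply convexHull_mono
    rintro _ ⟨y, ⟨hy1, hy2, hy3⟩, rfl⟩
    refine ⟨smul_mem_closure_openCone (by norm_num) hy1, ?_, ?_⟩
    · have := hy2.nsmul 2
      simpa using this
    · simpa using hy3
  have := h1 ⟨x, hx, rfl⟩
  simpa using this

end cone

lemma IsSailFace.weak {N : ℕ} {a : Fin N → Fin N → ℝ} {ε : Fin N → ℝ} {F : Set (Fin N → ℝ)}
    (h : IsSailFace a ε F) : IsSailFaceWeak a ε F :=
  ⟨h.1, h.2.1, h.2.2.convex (convex_convexHull ℝ _), h.2.2.isExtreme⟩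

lemma OccursAt.weak {d : ℕ} {P : Set (Fin d → ℝ)} {h : ℕ} (H : OccursAt P h) :
    OccursWeaklyAt P h := by
  obtain ⟨n, hn, a, ε, F, h1, h2, h3, h4, h5⟩ := H
  exact ⟨n, hn, a, ε, F, h1, h2, h3.weak, h4, h5⟩

theorem OccursWeaklyAt.criterion {d : ℕ} {P : Set (Fin d → ℝ)} {h : ℕ}
    (hP : IsFullDimensional P) (H : OccursWeaklyAt P h) : Criterion P h := by
  obtain ⟨n, -, a, ε, F, -, -, ⟨-, -, -, hext⟩, ⟨g, hginj, hgint, rfl⟩, hh, ℓ, -, ⟨e, heF, heint, hle⟩, hlF⟩ := H
  have hh0 : (h : ℝ) ≠ 0 := by exact_mod_cast hh.ne'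
  -- `ℓ ∘ g` is constant
  have hlg : ∀ x, ℓ (g x) = h := by
    intro x
    have hx : x ∈ affineSpan ℝ P := by rw [hP]; trivial
    have hsub : affineSpan ℝ P ≤ (AffineSubspace.mk' (h : ℝ) (⊥ : Submodule ℝ ℝ)).comap
        (ℓ.toAffineMap.comp g) := by
      rw [affineSpan_le]
      intro y hy
      simp only [AffineSubspace.coe_comap, Set.mem_preimage, SetLike.mem_coe,
        AffineSubspace.mem_mk', Submodule.mem_bot]
      have := hlF (g y) ⟨y, hy, rfl⟩
      simp [this]
    have := hsub hx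
    simp only [AffineSubspace.mem_comap, AffineSubspace.mem_mk', Submodule.mem_bot] at this
    simp only [AffineMap.coe_comp, Function.comp_apply, LinearMap.coe_toAffineMap, vsub_eq_sub] at this
    linarith
  have hgx : ∀ x, g x = g 0 + g.linear x := by
    intro x
    have := g.map_vadd 0 x
    simp only [vadd_eq_add, add_zero] at this
    rw [this]
    exact add_comm _ _
  have hllin : ∀ x, ℓ (g.linear x) = 0 := by
    intro x
    have h1 := hlg x
    rw [hgx x, map_add, hlg 0] at h1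
    linarith
  -- the point `h • e` lies in the image of `g`
  have hspan : ∀ y ∈ Submodule.span ℝ (g '' P), ∃ (s : ℝ) (x : Fin d → ℝ),
      y = s • g 0 + g.linear x := by
    intro y hy
    induction hy using Submodule.span_induction with
    | mem y hy =>
      obtain ⟨x, -, rfl⟩ := hy
      exact ⟨1, x, by rw [one_smul]; exact hgx x⟩
    | zero => exact ⟨0, 0, by simp⟩
    | add y z _ _ hy hz =>
      obtain ⟨s, x, rfl⟩ := hy
      obtain ⟨t, x', rfl⟩ := hz
      exact ⟨s + t, x + x', by rw [add_smul, map_add]; abel⟩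
    | smul c y _ hy =>
      obtain ⟨s, x, rfl⟩ := hy
      exact ⟨c * s, c • x, by rw [smul_add, mul_smul, map_smul]⟩
  obtain ⟨s, x0, hex⟩ := hspan _ ((Submodule.span ℝ (g '' P)).smul_mem (h : ℝ) heF)
  have hs : s = 1 := by
    have h1 := congrArg ℓ hex
    rw [map_smul, map_add, map_smul, hllin, hlg, hle] at h1
    simp only [smul_eq_mul, mul_one, add_zero] at h1
    have : (s - 1) * (h : ℝ) = 0 := by linarith
    rcases mul_eq_zero.mp this with h2 | h2
    · linarith
    · exact absurd h2 hh0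
  rw [hs, one_smul, ← hgx] at hex
  have hx0 : IsIntVec x0 := by
    rw [← hgint, ← hex]
    exact heint.nsmul h
  obtain ⟨o, rfl⟩ := hx0.exists_eq
  refine ⟨o, ?_⟩
  intro j hj hjh x hxP hdiv
  have hj0 : (0 : ℝ) < j := by exact_mod_cast hj
  have hh1 : (0 : ℝ) < h := by exact_mod_cast hh
  choose z hz using hdiv
  obtain ⟨y, hyP, hyx⟩ := hxP
  -- the lattice point
  set q : Fin (n + 1) → ℝ := ((j : ℝ) / h) • g y with hq
  have hq2 : q = (j : ℝ) • e + g.linear (fun i => (z i : ℝ)) := by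
    have h1 : g y = (h : ℝ) • e + g.linear (y - fun i => (o i : ℝ)) := by
      have e1 := hgx y
      have e2 := hgx (fun i => (o i : ℝ))
      rw [map_sub, hex, e2, e1]
      abel
    have h2 : (fun i => (z i : ℝ)) = (1 / (h : ℝ)) • ((j : ℝ) • y - (j : ℝ) • fun i => (o i : ℝ)) := by
      funext i
      have h3 := congrFun hyx i
      simp only [Pi.smul_apply, smul_eq_mul, Pi.sub_apply] at h3 ⊢
      have h4 : ((x i : ℝ)) - j * o i = h * z i := by exact_mod_cast hz i
      rw [h3, h4]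
      field_simp
    rw [hq, h1, h2, smul_add, map_smul, ← smul_sub, map_smul, smul_smul, smul_smul]
    congr 2
    · field_simp
    · ring
  have hlinint : IsIntVec (g.linear (fun i => (z i : ℝ))) := by
    have h1 := (hgint (fun i => (z i : ℝ))).2 (isIntVec_cast z)
    have h2 := (hgint (0 : Fin d → ℝ)).2 IsIntVec.zero
    have h3 := h1.sub h2
    rw [hgx] at h3
    simpa using h3
  have hqint : IsIntVec q := by
    rw [hq2]
    exact (heint.nsmul j).add hlinint
  have hlq : ℓ q = j := by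
    rw [hq, map_smul, hlg, smul_eq_mul]
    field_simp
  have hq0 : q ≠ 0 := by
    intro h0
    rw [h0, map_zero] at hlq
    linarith
  have hgyF : g y ∈ g '' P := ⟨y, hyP, rfl⟩
  have hgyK : g y ∈ sailBody a ε := hext.1 hgyF
  have hqK : q ∈ sailBody a ε := by
    apply subset_convexHull
    exact ⟨smul_mem_closure_openCone (by positivity) (sailBody_subset_closure hgyK), hqint, hq0⟩
  have h2K := two_smul_mem_sailBody hgyK
  have hseg : g y ∈ openSegment ℝ q ((2 : ℝ) • g y) := by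
    have hjh' : (j : ℝ) < h := by exact_mod_cast hjh
    have hr1 : (j : ℝ) / h < 1 := by rw [div_lt_one hh1]; exact hjh'
    rw [hq]
    clear_value q
    generalize (j : ℝ) / h = r at hr1
    have hpos : (0 : ℝ) < 2 - r := by linarith
    have hlt : (0 : ℝ) < 1 - r := by linarith
    refine ⟨1 / (2 - r), (1 - r) / (2 - r), by positivity, by positivity, ?_, ?_⟩
    · field_simp
      ring
    · rw [smul_smul, smul_smul, ← add_smul]
      have : 1 / (2 - r) * r + (1 - r) / (2 - r) * 2 = 1 := by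
        field_simp
        ring
      rw [this, one_smul]
  have hqF := hext.2 hqK h2K hgyF hseg
  have := hlF q hqF
  rw [hlq] at this
  have hjh' : (j : ℝ) < h := by exact_mod_cast hjh
  linarith

end Pool.Agent.Lib.MP_0bc52e_nt
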