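import Pool.Agent.Lib.MP_0bc52e_nt.Sufficiency

open scoped Pointwise

namespace Pool.Agent.Lib.MP_0bc52e_nt

/-- The criterion at a multiple of `m` implies the criterion at `m`. -/
lemma Criterion.of_mul {d m k : ℕ} (hk : 0 < k) {P : Set (Fin d → ℝ)} (H : Criterion P (m * k)) :
    Criterion P m := by
  obtain ⟨o, ho⟩ := H
  refine ⟨o, fun j hj hjm x hx hcong => ?_⟩
  refine ho (j * k) (Nat.mul_pos hj hk) (Nat.mul_lt_mul_of_pos_right hjm hk) (fun i => k * x i) ?_ ?_
  · obtain ⟨y, hy, hyx⟩ := hx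
    refine ⟨y, hy, ?_⟩
    funext i
    have := congrFun hyx i
    simp only [Pi.smul_apply, smul_eq_mul] at this ⊢
    push_cast
    rw [← this]
    ring
  · intro i
    obtain ⟨q, hq⟩ := hcong i
    refine ⟨q, ?_⟩
    push_cast
    have : (k : ℤ) * x i - j * k * o i = k * (x i - j * o i) := by ring
    rw [this, hq]
    ring

lemma criterion_two_iff {d : ℕ} {P : Set (Fin d → ℝ)} :
    Criterion P 2 ↔ ∃ c : Fin d → ℤ, ∀ x : Fin d → ℤ, (fun i => (x i : ℝ)) ∈ P →
      ¬ ∀ i, (2 : ℤ) ∣ x i - c i := by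
  constructor
  · rintro ⟨o, ho⟩
    refine ⟨o, fun x hx hc => ho 1 (by norm_num) (by norm_num) x (by simpa using hx) ?_⟩
    simpa using hc
  · rintro ⟨c, hc⟩
    refine ⟨c, fun j hj hj2 x hx hcong => ?_⟩
    have hj1 : j = 1 := by omega
    subst hj1
    exact hc x (by simpa using hx) (by simpa using hcong)

lemma criterion_three_iff {d : ℕ} {P : Set (Fin d → ℝ)} :
    Criterion P 3 ↔ ∃ c : Fin d → ℤ, ∀ x : Fin d → ℤ, (fun i => (x i : ℝ)) ∈ (2 : ℝ) • P →
      ¬ ∀ i, (3 : ℤ) ∣ x i - c i := by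
  constructor
  · rintro ⟨o, ho⟩
    refine ⟨fun i => 2 * o i, fun x hx hc => ho 2 (by norm_num) (by norm_num) x ?_ ?_⟩
    · simpa using hx
    · simpa using hc
  · rintro ⟨c, hc⟩
    refine ⟨fun i => -c i, fun j hj hj3 x hx hcong => ?_⟩
    have hj12 : j = 1 ∨ j = 2 := by omega
    rcases hj12 with rfl | rfl
    · refine hc (fun i => 2 * x i) ?_ ?_
      · refine ⟨fun i => (x i : ℝ), by simpa using hx, ?_⟩
        funext i
        simp
      · intro i
        obtain ⟨q, hq⟩ := hcong i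
        refine ⟨2 * q - c i, ?_⟩
        push_cast at hq
        linarith
    · refine hc x (by simpa using hx) ?_
      intro i
      obtain ⟨q, hq⟩ := hcong i
      refine ⟨q - c i, ?_⟩
      push_cast at hq
      linarith

end Pool.Agent.Lib.MP_0bc52e_nt
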