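import Pool.Agent.Lib.MP_0bc52e_nt.Dilates

open scoped Pointwise

namespace Pool.Agent.Lib.MP_0bc52e_nt

/-- The vertices of the standard simplex. -/
def simpVert (d : ℕ) : Set (Fin d → ℝ) := insert 0 (Set.range (fun i : Fin d => Pi.single i (1 : ℝ)))

/-- The standard simplex with vertices the origin and the unit vectors. -/
def simp' (d : ℕ) : Set (Fin d → ℝ) := convexHull ℝ (simpVert d)

lemma simp'_isIntegerPolytope (d : ℕ) : IsIntegerPolytope (simp' d) := by
  refine ⟨simpVert d, (Set.finite_range _).insert 0, ?_, rfl⟩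
  rintro v (rfl | ⟨i, rfl⟩)
  · exact IsIntVec.zero
  · intro l
    by_cases h : l = i
    · subst h
      exact ⟨1, by simp⟩
    · exact ⟨0, by simp [Pi.single_apply, h]⟩

lemma simp'_isFullDimensional (d : ℕ) : IsFullDimensional (simp' d) := by
  unfold IsFullDimensional simp'
  rw [affineSpan_convexHull, eq_top_iff]
  have h0 : (0 : Fin d → ℝ) ∈ affineSpan ℝ (simpVert d) :=
    subset_affineSpan ℝ _ (Set.mem_insert _ _)
  have h1 : ∀ i : Fin d, (Pi.single i (1 : ℝ) : Fin d → ℝ) ∈ affineSpan ℝ (simpVert d) := fun i =>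
    subset_affineSpan ℝ _ (Set.mem_insert_of_mem _ ⟨i, rfl⟩)
  intro x _
  have hdir : ∀ i : Fin d, (Pi.single i (1 : ℝ) : Fin d → ℝ) ∈ (affineSpan ℝ (simpVert d)).direction := by
    intro i
    have := AffineSubspace.vsub_mem_direction (h1 i) h0
    simpa using this
  have hx : x ∈ (affineSpan ℝ (simpVert d)).direction := by
    have : x = ∑ i, x i • (Pi.single i (1 : ℝ) : Fin d → ℝ) := by
      funext l
      simp [Finset.sum_apply, Pi.single_apply]
    rw [this]
    exact Submodule.sum_mem _ (fun i _ => Submodule.smul_mem _ _ (hdir i))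
  have := AffineSubspace.vadd_mem_of_mem_direction hx h0
  simpa using this

lemma simp'_subset (d : ℕ) : simp' d ⊆ {y | (∀ i, 0 ≤ y i) ∧ ∑ i, y i ≤ 1} := by
  apply convexHull_min
  · rintro v (rfl | ⟨i, rfl⟩)
    · simp
    · refine ⟨fun l => ?_, ?_⟩
      · by_cases h : l = i
        · subst h; simp
        · simp [Pi.single_apply, h]
      · simp
  · intro x hx y hy a b ha hb hab
    refine ⟨fun i => ?_, ?_⟩
    · have := add_nonneg (mul_nonneg ha (hx.1 i)) (mul_nonneg hb (hy.1 i))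
      simpa using this
    · simp only [Pi.add_apply, Pi.smul_apply, smul_eq_mul, Finset.sum_add_distrib, ← Finset.mul_sum]
      have h1 := mul_le_mul_of_nonneg_left hx.2 ha
      have h2 := mul_le_mul_of_nonneg_left hy.2 hb
      linarith

theorem simp'_criterion {d k h : ℕ} (hk : k < d) (hh : 0 < h) :
    Criterion ((k : ℝ) • simp' d) h := by
  refine ⟨fun _ => 1, ?_⟩
  intro j hj hjh x hx hcong
  obtain ⟨_, ⟨y, hy, rfl⟩, hyx⟩ := hx
  obtain ⟨hy1, hy2⟩ := simp'_subset d hy
  have hj0 : (0 : ℝ) < j := by exact_mod_cast hj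
  have hx : ∀ i, (x i : ℝ) = j * (k * y i) := by
    intro i
    have := congrFun hyx i
    simpa using this.symm
  have hxnn : ∀ i, 0 ≤ x i := by
    intro i
    have h1 : (0 : ℝ) ≤ x i := by
      rw [hx i]
      have := hy1 i
      positivity
    exact_mod_cast h1
  have hxj : ∀ i, (j : ℤ) ≤ x i := by
    intro i
    obtain ⟨q, hq⟩ := hcong i
    have h1 := hxnn i
    have hhZ : (0 : ℤ) < h := by exact_mod_cast hh
    have hjhZ : (j : ℤ) < h := by exact_mod_cast hjh
    have h2 : (h : ℤ) * (-1) < h * q := by linarith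
    have h3 := lt_of_mul_lt_mul_left h2 hhZ.le
    have h4 : 0 ≤ q := by omega
    have := mul_nonneg hhZ.le h4
    linarith
  have h1 : ∑ i, (x i : ℝ) ≤ j * k := by
    simp only [hx, ← Finset.mul_sum]
    have : (j : ℝ) * (k * ∑ i, y i) ≤ j * (k * 1) := by
      apply mul_le_mul_of_nonneg_left _ hj0.le
      apply mul_le_mul_of_nonneg_left hy2 (Nat.cast_nonneg k)
    linarith
  have h2 : (j : ℝ) * d ≤ ∑ i, (x i : ℝ) := by
    have : ∑ _i : Fin d, (j : ℝ) ≤ ∑ i, (x i : ℝ) :=
      Finset.sum_le_sum (fun i _ => by exact_mod_cast hxj i)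
    simp only [Finset.sum_const, Finset.card_univ, Fintype.card_fin, nsmul_eq_mul] at this
    linarith
  have h3 : (j : ℝ) * d ≤ j * k := h2.trans h1
  have h4 := le_of_mul_le_mul_left h3 hj0
  have h5 : d ≤ k := by exact_mod_cast h4
  omega

lemma IsIntegerPolytope.smul {d : ℕ} {Q : Set (Fin d → ℝ)} (hQ : IsIntegerPolytope Q) (k : ℕ) :
    IsIntegerPolytope ((k : ℝ) • Q) := by
  obtain ⟨V, hV1, hV2, rfl⟩ := hQ
  refine ⟨(k : ℝ) • V, hV1.smul_set, ?_, ?_⟩
  · rintro _ ⟨v, hv, rfl⟩
    exact (hV2 v hv).nsmul k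
  · rw [convexHull_smul]

end Pool.Agent.Lib.MP_0bc52e_nt
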