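import Pool.Agent.Lib.MP_0bc52e_nt.Forms

open scoped Pointwise

namespace Pool.Agent.Lib.MP_0bc52e_nt

theorem Criterion.occursAt {d h : ℕ} (hh : 0 < h) {P : Set (Fin d → ℝ)}
    (hP : IsIntegerPolytope P) (hfull : IsFullDimensional P) (H : Criterion P h) :
    OccursAt P h := by
  classical
  obtain ⟨o, ho⟩ := H
  have hh1 : (1 : ℝ) ≤ h := by exact_mod_cast hh
  have hh0 : (0 : ℝ) < h := by linarith
  have hPne : P.Nonempty := by
    have h1 : (affineSpan ℝ P : Set (Fin d → ℝ)).Nonempty := by
      have h2 : affineSpan ℝ P = ⊤ := hfull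
      rw [h2]
      exact ⟨0, trivial⟩
    exact (affineSpan_nonempty ℝ).1 h1
  have hPc : IsCompact P := by
    obtain ⟨V, hV, -, rfl⟩ := hP
    exact hV.isCompact_convexHull ℝ
  have hPconv : Convex ℝ P := by
    obtain ⟨V, hV, -, rfl⟩ := hP
    exact convex_convexHull ℝ V
  set oR : Fin d → ℝ := fun i => (o i : ℝ) with hoR
  set P' : Set (Fin d → ℝ) := (fun y => y - oR) '' P with hP'
  have hP'c : IsCompact P' := hPc.image (by fun_prop)
  have hP'conv : Convex ℝ P' := by
    have : P' = (fun y => -oR + y) '' P := by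
      rw [hP']
      congr 1
      funext y
      abel
    rw [this]
    exact hPconv.translate (-oR)
  obtain ⟨R1, hR1⟩ := hP'c.exists_bound_of_continuousOn (f := fun y => y) continuousOn_id
  set R0 : ℝ := max R1 0 with hR0
  have hR0nn : 0 ≤ R0 := le_max_right _ _
  have hR0b : ∀ y ∈ P', ∀ i, |y i| ≤ R0 := by
    intro y hy i
    have h1 := hR1 y hy
    have h2 := norm_le_pi_norm y i
    rw [Real.norm_eq_abs] at h2
    exact (h2.trans h1).trans (le_max_left _ _)
  set c : ℝ := (d + 1) * R0 + 2 with hc
  have hcpos : 0 < c := by positivity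
  set B : ℝ := (d + 1) * c * h with hB
  have hBnn : 0 ≤ B := by positivity
  set Bad : Set ((Fin d → ℤ) × ℕ) := {p | (∀ i, |(p.1 i : ℝ)| ≤ B) ∧ 1 ≤ p.2 ∧ p.2 ≤ h ∧
    (fun i => (p.1 i : ℝ)) ∉ ((p.2 : ℝ) / h) • P'} with hBad
  have hBadfin : Bad.Finite := by
    apply Set.Finite.subset
      ((Set.finite_Icc (fun _ : Fin d => -⌈B⌉) (fun _ : Fin d => ⌈B⌉)).prod (Set.finite_Iic h))
    rintro ⟨x, t⟩ ⟨hx, -, ht, -⟩
    refine ⟨⟨fun i => ?_, fun i => ?_⟩, ht⟩
    · have h1 := (abs_le.mp (hx i)).1
      have h2 : (-⌈B⌉ : ℝ) ≤ (x i : ℝ) := by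
        have := Int.le_ceil B
        linarith
      exact_mod_cast h2
    · have h1 := (abs_le.mp (hx i)).2
      have h2 : (x i : ℝ) ≤ (⌈B⌉ : ℝ) := h1.trans (Int.le_ceil B)
      exact_mod_cast h2
  obtain ⟨m, b, hb⟩ := hBadfin.fin_embedding
  have hbmem : ∀ i, b i ∈ Bad := fun i => by rw [← hb]; exact ⟨i, rfl⟩
  have hsep : ∀ i, ∃ (f : StrongDual ℝ (Fin d → ℝ)) (u : ℝ),
      (∀ y ∈ (((b i).2 : ℝ) / h) • P', f y < u) ∧ u < f (fun l => ((b i).1 l : ℝ)) := by
    intro i
    apply geometric_hahn_banach_closed_point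
    · exact hP'conv.smul _
    · exact (hP'c.smul _).isClosed
    · exact (hbmem i).2.2.2
  choose u β huβ1 huβ2 using hsep
  have htpos : ∀ i, (0 : ℝ) < (b i).2 := fun i => by
    have := (hbmem i).2.1
    exact_mod_cast this
  -- bound for the sum of the separating forms
  obtain ⟨M1, hM1⟩ := hP'c.exists_bound_of_continuousOn
    (f := fun y => ∑ i, (β i / (b i).2 * h - u i y)) (by fun_prop)
  set M : ℝ := max M1 0 with hM
  have hMnn : 0 ≤ M := le_max_right _ _
  set η : ℝ := 1 / (M + 1) with hη
  have hηpos : 0 < η := by positivity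
  have hη1 : η ≤ 1 := by
    rw [hη, div_le_one (by positivity)]
    linarith
  have hηG : ∀ y ∈ P', η * ∑ i, (β i / (b i).2 * h - u i y) < 1 := by
    intro y hy
    have h1 := hM1 y hy
    rw [Real.norm_eq_abs] at h1
    have h2 := (le_abs_self _).trans h1
    have h3 : ∑ i, (β i / (b i).2 * h - u i y) ≤ M := h2.trans (le_max_left _ _)
    calc η * ∑ i, (β i / (b i).2 * h - u i y) ≤ η * M := mul_le_mul_of_nonneg_left h3 hηpos.le
      _ < 1 := by
        rw [hη, one_div, inv_mul_lt_iff₀ (by positivity)]
        linarith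
  set D : ℝ := ∑ i, (|β i / (b i).2| * h + ‖u i‖ * B) with hD
  have hDnn : 0 ≤ D := by
    apply Finset.sum_nonneg
    intro i _
    positivity
  set κ : ℝ := c * h + D + 1 with hκ
  have hκpos : 0 < κ := by positivity
  -- the linear maps
  let T : (Fin (m + (d + 1)) → ℝ) →ₗ[ℝ] ℝ := LinearMap.proj (Fin.natAdd m (Fin.last d))
  let X : (Fin (m + (d + 1)) → ℝ) →ₗ[ℝ] (Fin d → ℝ) :=
    LinearMap.funLeft ℝ ℝ (fun i => Fin.natAdd m (Fin.castSucc i))
  let W : Fin m → ((Fin (m + (d + 1)) → ℝ) →ₗ[ℝ] ℝ) :=
    fun i => LinearMap.proj (Fin.castAdd (d + 1) i)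
  let G : Fin m → ((Fin (m + (d + 1)) → ℝ) →ₗ[ℝ] ℝ) :=
    fun i => (β i / (b i).2) • T - (u i).toLinearMap ∘ₗ X
  let rr : Fin (d + 1) → ((Fin (m + (d + 1)) → ℝ) →ₗ[ℝ] ℝ) :=
    Fin.snoc (fun i => LinearMap.proj i ∘ₗ X) (-∑ i, LinearMap.proj i ∘ₗ X)
  let Φ : Fin (m + (d + 1)) → ((Fin (m + (d + 1)) → ℝ) →ₗ[ℝ] ℝ) :=
    Fin.addCases (fun i => η • G i + κ • W i)
      (fun k => c • T + rr k - η • ∑ i, G i - κ • ∑ i, W i)
  have hΦl : ∀ i z, Φ (Fin.castAdd (d + 1) i) z = η * G i z + κ * W i z := by
    intro i z
    simp only [Φ, Fin.addCases_left]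
    simp
  have hΦr : ∀ k z, Φ (Fin.natAdd m k) z = c * T z + rr k z - η * ∑ i, G i z - κ * ∑ i, W i z := by
    intro k z
    simp only [Φ, Fin.addCases_right]
    simp
  have hrrc : ∀ i z, rr (Fin.castSucc i) z = X z i := by
    intro i z
    simp only [rr, Fin.snoc_castSucc]
    rfl
  have hrrl : ∀ z, rr (Fin.last d) z = -∑ i, X z i := by
    intro z
    simp only [rr, Fin.snoc_last]
    simp
  have hrrsum : ∀ z, ∑ k, rr k z = 0 := by
    intro z
    rw [Fin.sum_univ_castSucc, hrrl]
    simp only [hrrc]
    ring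
  have hGz : ∀ i z, G i z = β i / (b i).2 * T z - u i (X z) := by
    intro i z
    simp [G]
  have hsum : ∀ z, (d + 1) * ∑ i, Φ (Fin.castAdd (d + 1) i) z + ∑ k, Φ (Fin.natAdd m k) z
      = (d + 1) * (c * T z) := by
    intro z
    simp only [hΦl, hΦr]
    rw [Finset.sum_add_distrib, Finset.sum_sub_distrib, Finset.sum_sub_distrib,
      Finset.sum_add_distrib, hrrsum, ← Finset.mul_sum, ← Finset.mul_sum]
    simp only [Finset.sum_const, Finset.card_univ, Fintype.card_fin, nsmul_eq_mul]
    push_cast
    ring
  have hzext : ∀ z z' : Fin (m + (d + 1)) → ℝ, (∀ i, W i z = W i z') → X z = X z' → T z = T z' →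
      z = z' := by
    intro z z' h1 h2 h3
    funext j
    induction j using Fin.addCases with
    | left i => exact h1 i
    | right k =>
      induction k using Fin.lastCases with
      | last => exact h3
      | cast i => exact congrFun h2 i
  have hdpos : (0 : ℝ) < d + 1 := by positivity
  -- the affine embedding
  let L : (Fin d → ℝ) →ₗ[ℝ] (Fin (m + (d + 1)) → ℝ) :=
    LinearMap.pi (Fin.addCases (fun _ => 0) (Fin.snoc (fun i => LinearMap.proj i) 0))
  let v0 : Fin (m + (d + 1)) → ℝ := Fin.addCases (fun _ => 0) (Fin.snoc (fun i => -oR i) (h : ℝ))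
  let g : (Fin d → ℝ) →ᵃ[ℝ] (Fin (m + (d + 1)) → ℝ) :=
    L.toAffineMap + AffineMap.const ℝ (Fin d → ℝ) v0
  have hg : ∀ y, g y = L y + v0 := fun y => rfl
  have hgW : ∀ y i, W i (g y) = 0 := by
    intro y i
    simp [hg, W, L, v0]
  have hgX : ∀ y, X (g y) = y - oR := by
    intro y
    funext i
    simp [hg, X, L, v0, LinearMap.funLeft_apply, sub_eq_add_neg]
  have hgT : ∀ y, T (g y) = h := by
    intro y
    rw [hg]
    simp only [T, LinearMap.proj_apply, Pi.add_apply, L, v0, LinearMap.pi_apply,
      Fin.addCases_right, Fin.snoc_last, LinearMap.zero_apply, zero_add]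
  have hginj : Function.Injective g := by
    intro y y' hyy
    have h1 := hgX y
    rw [hyy, hgX y'] at h1
    have := congrArg (· + oR) h1
    simpa using this.symm
  have hgint : ∀ y, IsIntVec (g y) ↔ IsIntVec y := by
    intro y
    constructor
    · intro hy i
      obtain ⟨k, hk⟩ := hy (Fin.natAdd m (Fin.castSucc i))
      have h1 := congrFun (hgX y) i
      have h2 : X (g y) i = g y (Fin.natAdd m (Fin.castSucc i)) := rfl
      rw [h2, hk] at h1
      refine ⟨k + o i, ?_⟩
      simp only [Pi.sub_apply, hoR] at h1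
      push_cast
      linarith
    · intro hy j
      induction j using Fin.addCases with
      | left i => exact ⟨0, by rw [Int.cast_zero]; exact hgW y i⟩
      | right k =>
        induction k using Fin.lastCases with
        | last => exact ⟨h, by rw [Int.cast_natCast]; exact hgT y⟩
        | cast i =>
          obtain ⟨k, hk⟩ := hy i
          have h1 := congrFun (hgX y) i
          refine ⟨k - o i, ?_⟩
          have h2 : X (g y) i = g y (Fin.natAdd m (Fin.castSucc i)) := rfl
          rw [← h2, h1]
          simp [hk, hoR]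
  -- positivity on the image
  have hpos : ∀ y ∈ P, ∀ i, 0 < Φ i (g y) := by
    intro y hy j
    have hy' : y - oR ∈ P' := ⟨y, hy, rfl⟩
    have hGpos : ∀ i, 0 < G i (g y) := by
      intro i
      rw [hGz, hgX, hgT]
      have h1 := huβ1 i ((((b i).2 : ℝ) / h) • (y - oR)) (Set.smul_mem_smul_set hy')
      rw [map_smul, smul_eq_mul] at h1
      have h2 := htpos i
      have h3 : (b i).2 / (h : ℝ) * (u i (y - oR)) * (h / (b i).2) < β i * (h / (b i).2) :=
        mul_lt_mul_of_pos_right h1 (by positivity)
      have h4 : (b i).2 / (h : ℝ) * (u i (y - oR)) * (h / (b i).2) = u i (y - oR) := by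
        field_simp
      have h5 : β i * (h / (b i).2) = β i / (b i).2 * h := by ring
      linarith
    induction j using Fin.addCases with
    | left i =>
      rw [hΦl, hgW]
      have := mul_pos hηpos (hGpos i)
      linarith
    | right k =>
      rw [hΦr]
      have h1 : ∑ i, W i (g y) = 0 := Finset.sum_eq_zero (fun i _ => hgW y i)
      have h2 : η * ∑ i, G i (g y) < 1 := by
        have := hηG (y - oR) hy'
        simpa only [hGz, hgX, hgT] using this
      have hx := hR0b (y - oR) hy'
      have h3 : -((d : ℝ) * R0) - R0 ≤ rr k (g y) := by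
        induction k using Fin.lastCases with
        | last =>
          rw [hrrl, hgX]
          have : ∑ i, (y - oR) i ≤ ∑ _i : Fin d, R0 :=
            Finset.sum_le_sum (fun i _ => (abs_le.mp (hx i)).2)
          simp only [Finset.sum_const, Finset.card_univ, Fintype.card_fin, nsmul_eq_mul] at this
          linarith
        | cast i =>
          rw [hrrc, hgX]
          have h4 := (abs_le.mp (hx i)).1
          have h5 : 0 ≤ (d : ℝ) * R0 := by positivity
          linarith
      rw [h1, hgT]
      have h6 : c * 1 ≤ c * h := mul_le_mul_of_nonneg_left hh1 hcpos.le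
      rw [hc] at h6 ⊢
      linarith
  -- the linear forms are linearly independent
  have hker : ∀ z, (∀ j, Φ j z = 0) → z = 0 := by
    intro z hz
    have h1 := hsum z
    simp only [hz, Finset.sum_const_zero, mul_zero, add_zero] at h1
    have hT0 : T z = 0 := by
      have h2 : ((d : ℝ) + 1) * c * T z = 0 := by linarith
      rcases mul_eq_zero.mp h2 with h3 | h3
      · exfalso
        have : 0 < ((d : ℝ) + 1) * c := by positivity
        linarith
      · exact h3
    set A := η * ∑ i, G i z + κ * ∑ i, W i z with hA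
    have h2 : ∀ k, rr k z = A := by
      intro k
      have := hz (Fin.natAdd m k)
      rw [hΦr, hT0] at this
      linarith
    have hA0 : A = 0 := by
      have h3 := hrrsum z
      simp only [h2, Finset.sum_const, Finset.card_univ, Fintype.card_fin, nsmul_eq_mul] at h3
      push_cast at h3
      rcases mul_eq_zero.mp h3 with h4 | h4
      · linarith
      · exact h4
    have hX0 : X z = 0 := by
      funext i
      have := h2 (Fin.castSucc i)
      rw [hrrc, hA0] at this
      exact this
    apply hzext
    · intro i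
      have := hz (Fin.castAdd (d + 1) i)
      rw [hΦl, hGz, hT0, hX0] at this
      simp only [mul_zero, map_zero, sub_zero, zero_add] at this
      rcases mul_eq_zero.mp this with h4 | h4
      · linarith
      · rw [h4, map_zero]
    · rw [hX0, map_zero]
    · rw [hT0, map_zero]
  have hΦind : LinearIndependent ℝ Φ := by
    rw [Fintype.linearIndependent_iff]
    intro γ hγ j0
    let Ψ : (Fin (m + (d + 1)) → ℝ) →ₗ[ℝ] (Fin (m + (d + 1)) → ℝ) := LinearMap.pi Φ
    have hinj : Function.Injective Ψ := by
      rw [← LinearMap.ker_eq_bot, LinearMap.ker_eq_bot']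
      intro z hz
      apply hker
      intro j
      exact congrFun hz j
    have hsurj := LinearMap.surjective_of_injective hinj
    obtain ⟨z, hz⟩ := hsurj (Pi.single j0 1)
    have h1 := LinearMap.congr_fun hγ z
    simp only [LinearMap.sum_apply, LinearMap.smul_apply, LinearMap.zero_apply, smul_eq_mul] at h1
    have h2 : ∀ j, Φ j z = (Pi.single j0 1 : Fin (m + (d + 1)) → ℝ) j := fun j => congrFun hz j
    simp only [h2] at h1
    simpa [Pi.single_apply] using h1
  -- the vector of height one
  set e : Fin (m + (d + 1)) → ℝ := Pi.single (Fin.natAdd m (Fin.last d)) 1 with he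
  have heint : IsIntVec e := by
    intro j
    rw [he, Pi.single_apply]
    split_ifs
    · exact ⟨1, by simp⟩
    · exact ⟨0, by simp⟩
  have hTe : T e = 1 := by simp [T, he]
  have hespan : e ∈ Submodule.span ℝ (g '' P) := by
    have h1 : g oR = (h : ℝ) • e := by
      apply hzext
      · intro i
        rw [hgW]
        simp [W, he, Pi.single_apply, Fin.ext_iff]
        omega
      · rw [hgX]
        funext i
        simp [X, he, Pi.single_apply, LinearMap.funLeft_apply, Fin.ext_iff]
        omega
      · rw [hgT, map_smul, hTe, smul_eq_mul, mul_one]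
    have h2 : g oR ∈ affineSpan ℝ (g '' P) := by
      rw [← AffineSubspace.map_span]
      have h3 : affineSpan ℝ P = ⊤ := hfull
      rw [h3]
      exact ⟨oR, trivial, rfl⟩
    have h3 := affineSpan_le_toAffineSubspace_span h2
    rw [h1] at h3
    have h4 : (h : ℝ) • e ∈ Submodule.span ℝ (g '' P) := h3
    have h5 := (Submodule.span ℝ (g '' P)).smul_mem ((h : ℝ)⁻¹) h4
    rwa [smul_smul, inv_mul_cancel₀ hh0.ne', one_smul] at h5
  have hTint : ∀ z, IsIntVec z → ∃ k : ℤ, T z = k := fun z hz => hz _
  -- minimality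
  have hmin : ∀ z, IsIntVec z → z ≠ 0 → (∀ j, 0 ≤ Φ j z) → (h : ℝ) < T z ∨ z ∈ g '' P := by
    intro z hzint hz0 hzΦ
    by_cases hTz : (h : ℝ) < T z
    · exact Or.inl hTz
    right
    push Not at hTz
    have h1 := hsum z
    have hs1 : 0 ≤ ∑ i, Φ (Fin.castAdd (d + 1) i) z := Finset.sum_nonneg (fun i _ => hzΦ _)
    have hs2 : 0 ≤ ∑ k, Φ (Fin.natAdd m k) z := Finset.sum_nonneg (fun i _ => hzΦ _)
    have hT0 : 0 ≤ T z := by
      by_contra hneg
      push Not at hneg
      have h2 : ((d : ℝ) + 1) * (c * T z) < 0 := by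
        have := mul_pos hdpos hcpos
        nlinarith
      have h3 : 0 ≤ ((d : ℝ) + 1) * ∑ i, Φ (Fin.castAdd (d + 1) i) z := by positivity
      linarith
    have hl : ∀ i, Φ (Fin.castAdd (d + 1) i) z ≤ c * T z := by
      intro i
      have h2 : Φ (Fin.castAdd (d + 1) i) z ≤ ∑ i, Φ (Fin.castAdd (d + 1) i) z :=
        Finset.single_le_sum (f := fun i => Φ (Fin.castAdd (d + 1) i) z) (fun i _ => hzΦ _)
          (Finset.mem_univ i)
      have h3 : ((d : ℝ) + 1) * ∑ i, Φ (Fin.castAdd (d + 1) i) z ≤ ((d : ℝ) + 1) * (c * T z) := by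
        linarith
      have h4 := le_of_mul_le_mul_left h3 hdpos
      exact h2.trans h4
    have hr : ∀ k, Φ (Fin.natAdd m k) z ≤ (d + 1) * (c * T z) := by
      intro k
      have h2 : Φ (Fin.natAdd m k) z ≤ ∑ k, Φ (Fin.natAdd m k) z :=
        Finset.single_le_sum (f := fun k => Φ (Fin.natAdd m k) z) (fun i _ => hzΦ _)
          (Finset.mem_univ k)
      have h3 : 0 ≤ ((d : ℝ) + 1) * ∑ i, Φ (Fin.castAdd (d + 1) i) z := by positivity
      linarith
    set A := η * ∑ i, G i z + κ * ∑ i, W i z with hA
    have hrr1 : ∀ k, A - c * T z ≤ rr k z := by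
      intro k
      have := hzΦ (Fin.natAdd m k)
      rw [hΦr] at this
      linarith
    have hrr2 : ∀ k, rr k z ≤ A + d * (c * T z) := by
      intro k
      have := hr k
      rw [hΦr] at this
      linarith
    have hA1 : A ≤ c * T z := by
      have h2 : ∑ _k : Fin (d + 1), (A - c * T z) ≤ ∑ k, rr k z :=
        Finset.sum_le_sum (fun k _ => hrr1 k)
      rw [hrrsum] at h2
      simp only [Finset.sum_const, Finset.card_univ, Fintype.card_fin, nsmul_eq_mul] at h2
      push_cast at h2
      by_contra hneg
      push Not at hneg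
      have : 0 < ((d : ℝ) + 1) * (A - c * T z) := mul_pos hdpos (by linarith)
      linarith
    have hA2 : -(d * (c * T z)) ≤ A := by
      have h2 : ∑ k, rr k z ≤ ∑ _k : Fin (d + 1), (A + d * (c * T z)) :=
        Finset.sum_le_sum (fun k _ => hrr2 k)
      rw [hrrsum] at h2
      simp only [Finset.sum_const, Finset.card_univ, Fintype.card_fin, nsmul_eq_mul] at h2
      push_cast at h2
      by_contra hneg
      push Not at hneg
      have : ((d : ℝ) + 1) * (A + d * (c * T z)) < 0 := mul_neg_of_pos_of_neg hdpos (by linarith)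
      linarith
    have hXb : ∀ i, |X z i| ≤ (d + 1) * (c * T z) := by
      intro i
      rw [← hrrc i z, abs_le]
      constructor
      · have := hrr1 (Fin.castSucc i)
        linarith
      · have := hrr2 (Fin.castSucc i)
        linarith
    have hXB : ∀ i, |X z i| ≤ B := by
      intro i
      refine (hXb i).trans ?_
      rw [hB]
      have h2 : c * T z ≤ c * h := mul_le_mul_of_nonneg_left hTz hcpos.le
      have h3 := mul_le_mul_of_nonneg_left h2 hdpos.le
      linarith
    have hGD : ∀ i, |η * G i z| ≤ D := by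
      intro i
      rw [abs_mul, abs_of_pos hηpos, hGz]
      have h2 : |β i / (b i).2 * T z - u i (X z)| ≤ |β i / (b i).2| * h + ‖u i‖ * B := by
        refine (abs_sub _ _).trans ?_
        apply add_le_add
        · rw [abs_mul, abs_of_nonneg hT0]
          exact mul_le_mul_of_nonneg_left hTz (abs_nonneg _)
        · have h3 := (u i).le_opNorm (X z)
          rw [Real.norm_eq_abs] at h3
          refine h3.trans ?_
          apply mul_le_mul_of_nonneg_left _ (norm_nonneg _)
          rw [pi_norm_le_iff_of_nonneg hBnn]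
          intro l
          rw [Real.norm_eq_abs]
          exact hXB l
      have h3 : |β i / (b i).2| * h + ‖u i‖ * B ≤ D := by
        rw [hD]
        exact Finset.single_le_sum (f := fun i => |β i / (b i).2| * h + ‖u i‖ * B)
          (fun i _ => by positivity) (Finset.mem_univ i)
      calc η * |β i / (b i).2 * T z - u i (X z)|
          ≤ 1 * |β i / (b i).2 * T z - u i (X z)| :=
            mul_le_mul_of_nonneg_right hη1 (abs_nonneg _)
        _ ≤ D := by linarith
    have hW0 : ∀ i, W i z = 0 := by
      intro i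
      have h2 := hzΦ (Fin.castAdd (d + 1) i)
      have h3 := hl i
      rw [hΦl] at h2 h3
      have h4 := abs_le.mp (hGD i)
      have h5 : c * T z ≤ c * h := mul_le_mul_of_nonneg_left hTz hcpos.le
      obtain ⟨k, hk⟩ := hzint (Fin.castAdd (d + 1) i)
      have hk' : W i z = k := hk
      rw [hk'] at h2 h3 ⊢
      have h6 : κ * (k : ℝ) < κ * 1 := by
        rw [hκ] at h3 ⊢
        linarith
      have h7 : κ * (-1 : ℝ) < κ * k := by
        rw [hκ] at h2 ⊢
        have : 0 ≤ c * h := by positivity
        linarith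
      have h8 : (k : ℝ) < 1 := lt_of_mul_lt_mul_left h6 hκpos.le
      have h9 : (-1 : ℝ) < k := lt_of_mul_lt_mul_left h7 hκpos.le
      have h10 : k < 1 := by exact_mod_cast h8
      have h11 : -1 < k := by exact_mod_cast h9
      have : k = 0 := by omega
      rw [this]
      simp
    obtain ⟨t0, ht0⟩ := hTint z hzint
    have ht0' : 0 ≤ t0 := by
      rw [ht0] at hT0
      exact_mod_cast hT0
    lift t0 to ℕ using ht0' with t
    have htz : T z = (t : ℝ) := by rw [ht0]; simp
    have hth : t ≤ h := by
      rw [htz] at hTz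
      exact_mod_cast hTz
    have htpos' : 1 ≤ t := by
      by_contra hneg
      have ht00 : t = 0 := by omega
      apply hz0
      have hTz0 : T z = 0 := by rw [htz, ht00]; simp
      apply hzext
      · intro i
        rw [hW0, map_zero]
      · rw [map_zero]
        funext i
        have := hXb i
        rw [hTz0] at this
        simp only [mul_zero] at this
        exact abs_nonpos_iff.mp this
      · rw [hTz0, map_zero]
    have hXint : IsIntVec (X z) := fun i => hzint _
    obtain ⟨xz, hxz⟩ := hXint.exists_eq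
    by_cases hin : X z ∈ ((t : ℝ) / h) • P'
    · obtain ⟨y', ⟨y, hyP, rfl⟩, hy⟩ := hin
      simp only at hy
      rcases hth.eq_or_lt with rfl | hlt
      · refine ⟨y, hyP, ?_⟩
        rw [div_self hh0.ne', one_smul] at hy
        apply hzext
        · intro i
          rw [hgW, hW0]
        · rw [hgX, hy]
        · rw [hgT, htz]
      · exfalso
        refine ho t (by omega) hlt (fun i => h * xz i + t * o i) ?_ ?_
        · refine ⟨y, hyP, ?_⟩
          funext i
          have h2 := congrFun hy i
          rw [hxz] at h2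
          simp only [Pi.smul_apply, Pi.sub_apply, smul_eq_mul, hoR] at h2 ⊢
          push_cast
          rw [← h2]
          field_simp
          ring
        · intro i
          exact ⟨xz i, by ring⟩
    · exfalso
      have hmem : (xz, t) ∈ Bad := by
        refine ⟨?_, htpos', hth, ?_⟩
        · intro i
          have := hXB i
          rw [hxz] at this
          exact this
        · rw [hxz] at hin
          exact hin
      rw [← hb] at hmem
      obtain ⟨i, hi⟩ := hmem
      have h2 := hzΦ (Fin.castAdd (d + 1) i)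
      rw [hΦl, hW0, hGz, htz, hxz] at h2
      have h3 := huβ2 i
      have h4 : (b i).1 = xz := by rw [hi]
      have h5 : (b i).2 = t := by rw [hi]
      rw [h4] at h3
      rw [h5] at h2
      have ht0 : (0 : ℝ) < t := by exact_mod_cast htpos'
      have h6 : β i / t * t = β i := by field_simp
      rw [h6] at h2
      have h7 : η * (β i - u i (fun l => (xz l : ℝ))) < 0 :=
        mul_neg_of_pos_of_neg hηpos (by linarith)
      linarith
  exact occursAt_of_forms (n := m + d) (Nat.le_add_left d m) hh hP hPne Φ hΦind g hginj hgint T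
    hTint e heint hTe hespan hgT hpos hmin

end Pool.Agent.Lib.MP_0bc52e_nt
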